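import Mathlib

/-!
Minimal covers and syzygies of finitely generated modules over a local ring, and lengths of
finitely generated modules over an artinian ring as natural numbers.
-/

set_option autoImplicit false

open IsLocalRing

universe u

namespace SAC84

section len

variable (R : Type u) [CommRing R]

/-- The length of a module as a natural number. -/
noncomputable def ln (X : Type u) [AddCommGroup X] [Module R X] : ℕ := (Module.length R X).toNat

variable {R} [IsArtinianRing R]

variable {X Y Z : Type u} [AddCommGroup X] [Module R X] [AddCommGroup Y] [Module R Y]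
  [AddCommGroup Z] [Module R Z]

lemma coe_ln (X : Type u) [AddCommGroup X] [Module R X] [Module.Finite R X] :
    ((ln R X : ℕ) : ℕ∞) = Module.length R X :=
  ENat.natCast_toNat Module.length_ne_top

lemma ln_add [Module.Finite R X] [Module.Finite R Y] [Module.Finite R Z]
    {f : X →ₗ[R] Y} {g : Y →ₗ[R] Z} (hf : Function.Injective f)
    (hg : Function.Surjective g) (H : Function.Exact f g) : ln R Y = ln R X + ln R Z := by
  have h := Module.length_eq_add_of_exact f g hf hg H
  rw [← coe_ln, ← coe_ln, ← coe_ln] at h
  exact_mod_cast h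

lemma ln_le_inj [Module.Finite R X] [Module.Finite R Y]
    {f : X →ₗ[R] Y} (hf : Function.Injective f) : ln R X ≤ ln R Y := by
  have h := Module.length_le_of_injective f hf
  rw [← coe_ln, ← coe_ln] at h
  exact_mod_cast h

lemma ln_le_surj [Module.Finite R X] [Module.Finite R Y]
    {f : X →ₗ[R] Y} (hf : Function.Surjective f) : ln R Y ≤ ln R X := by
  have h := Module.length_le_of_surjective f hf
  rw [← coe_ln, ← coe_ln] at h
  exact_mod_cast h

lemma ln_eq_equiv (e : X ≃ₗ[R] Y) : ln R X = ln R Y := by
  rw [ln, ln, e.length_eq]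

lemma ln_pi [Module.Finite R X] (n : ℕ) : ln R (Fin n → X) = n * ln R X := by
  have h : Module.length R (Fin n → X) = ((n * ln R X : ℕ) : ℕ∞) := by
    rw [Module.length_pi, ← coe_ln]
    simp
  rw [ln, h]
  simp

lemma ln_eq_zero_iff [Module.Finite R X] : ln R X = 0 ↔ Subsingleton X := by
  rw [← Module.length_eq_zero_iff (R := R), ← coe_ln]
  norm_cast

lemma ln_sub_add [Module.Finite R X] (N : Submodule R X) :
    ln R X = ln R N + ln R (X ⧸ N) :=
  ln_add (f := N.subtype) (g := N.mkQ) N.injective_subtype N.mkQ_surjective
    (LinearMap.exact_subtype_mkQ N)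

end len

section homfin

variable {R : Type u} [CommRing R] [IsNoetherianRing R]
variable {X Y : Type u} [AddCommGroup X] [Module R X] [AddCommGroup Y] [Module R Y]

/-- Homomorphisms out of a finite free module. -/
noncomputable def homPi (n : ℕ) : (Fin n → Y) ≃ₗ[R] ((Fin n → R) →ₗ[R] Y) :=
  (LinearEquiv.piRing R Y (Fin n) R).symm

instance finHom [Module.Finite R X] [Module.Finite R Y] : Module.Finite R (X →ₗ[R] Y) := by
  obtain ⟨n, p, hp⟩ := Module.Finite.exists_fin' R X
  have : Module.Finite R ((Fin n → R) →ₗ[R] Y) := Module.Finite.equiv (homPi (R := R) (Y := Y) n)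
  refine Module.Finite.of_injective (LinearMap.lcomp R Y p) ?_
  intro a b h
  ext x
  obtain ⟨v, rfl⟩ := hp x
  exact congrArg (fun t => t v) h

end homfin

section cover

variable {R : Type u} [CommRing R] [IsLocalRing R] [IsNoetherianRing R]

lemma exists_cover (X : Type u) [AddCommGroup X] [Module R X] [Module.Finite R X] :
    ∃ n : ℕ, ∃ p : (Fin n → R) →ₗ[R] X, Function.Surjective p :=
  Module.Finite.exists_fin' R X

open Classical in
/-- Minimal number of generators. -/
noncomputable def rk (R : Type u) [CommRing R] [IsLocalRing R] [IsNoetherianRing R]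
    (X : Type u) [AddCommGroup X] [Module R X] [Module.Finite R X] : ℕ :=
  Nat.find (exists_cover (R := R) X)

open Classical in
/-- A minimal cover. -/
noncomputable def cov (R : Type u) [CommRing R] [IsLocalRing R] [IsNoetherianRing R]
    (X : Type u) [AddCommGroup X] [Module R X] [Module.Finite R X] :
    (Fin (rk R X) → R) →ₗ[R] X :=
  (Nat.find_spec (exists_cover (R := R) X)).choose

lemma cov_surj (X : Type u) [AddCommGroup X] [Module R X] [Module.Finite R X] :
    Function.Surjective (cov R X) := by
  classical
  exact (Nat.find_spec (exists_cover (R := R) X)).choose_spec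

lemma rk_le (X : Type u) [AddCommGroup X] [Module R X] [Module.Finite R X] {n : ℕ}
    (p : (Fin n → R) →ₗ[R] X) (hp : Function.Surjective p) : rk R X ≤ n := by
  classical
  exact Nat.find_min' (exists_cover (R := R) X) ⟨p, hp⟩

/-- The kernel of a minimal cover lies in the maximal ideal times the free module. -/
lemma ker_cov_mem (X : Type u) [AddCommGroup X] [Module R X] [Module.Finite R X]
    (v : Fin (rk R X) → R) (hv : cov R X v = 0) (k : Fin (rk R X)) :
    v k ∈ maximalIdeal R := by
  by_contra hk
  have hu : IsUnit (v k) := by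
    rw [mem_maximalIdeal, mem_nonunits_iff, not_not] at hk
    exact hk
  obtain ⟨u, hu⟩ := hu
  have hn : rk R X ≠ 0 := fun h => by
    rw [h] at k
    exact k.elim0
  obtain ⟨m, hm⟩ := Nat.exists_eq_succ_of_ne_zero hn
  have key : ∀ (n : ℕ) (p : (Fin (n + 1) → R) →ₗ[R] X) (_ : Function.Surjective p)
      (v : Fin (n + 1) → R) (_ : p v = 0) (k : Fin (n + 1)) (u : Rˣ) (_ : (u : R) = v k),
      ∃ q : (Fin n → R) →ₗ[R] X, Function.Surjective q := by
    intro n p hp v hv k u hu
    let q : (Fin n → R) →ₗ[R] X :=
      Fintype.linearCombination R (fun i => p (Pi.single (k.succAbove i) 1))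
    refine ⟨q, ?_⟩
    have hq : ∀ i : Fin n, p (Pi.single (k.succAbove i) 1) ∈ LinearMap.range q := by
      intro i
      refine ⟨Pi.single i 1, ?_⟩
      simp [q, Fintype.linearCombination_apply, Pi.single_apply]
    have hsum : ∀ w : Fin (n + 1) → R, p w = ∑ j, w j • p (Pi.single j 1) := by
      intro w
      conv_lhs => rw [← LinearMap.sum_single_apply (fun _ : Fin (n + 1) => R) w]
      rw [map_sum]
      refine Finset.sum_congr rfl fun j _ => ?_
      rw [← map_smul]
      congr 1
      ext t
      simp [Pi.single_apply]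
    have hk : p (Pi.single k 1) ∈ LinearMap.range q := by
      have h1 := hsum v
      rw [hv, Fin.sum_univ_succAbove _ k, ← hu] at h1
      have h2 : p (Pi.single k 1) =
          -((↑(u⁻¹) : R) • ∑ i : Fin n, v (k.succAbove i) • p (Pi.single (k.succAbove i) 1)) := by
        have h3 : (u : R) • p (Pi.single k 1) =
            -(∑ i : Fin n, v (k.succAbove i) • p (Pi.single (k.succAbove i) 1)) :=
          eq_neg_of_add_eq_zero_left h1.symm
        rw [← smul_neg, ← h3, smul_smul]
        simp
      rw [h2]
      exact Submodule.neg_mem _ (Submodule.smul_mem _ _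
        (Submodule.sum_mem _ fun i _ => Submodule.smul_mem _ _ (hq i)))
    intro x
    obtain ⟨w, rfl⟩ := hp x
    have hmem : p w ∈ LinearMap.range q := by
      rw [hsum w, Fin.sum_univ_succAbove _ k]
      exact Submodule.add_mem _ (Submodule.smul_mem _ _ hk)
        (Submodule.sum_mem _ fun i _ => Submodule.smul_mem _ _ (hq i))
    exact hmem
  have key2 : ∀ (N : ℕ) (_ : N = m + 1) (p : (Fin N → R) →ₗ[R] X) (_ : Function.Surjective p)
      (v : Fin N → R) (_ : p v = 0) (k : Fin N) (u : Rˣ) (_ : (u : R) = v k),
      ∃ q : (Fin m → R) →ₗ[R] X, Function.Surjective q := by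
    rintro N rfl p hp v hv k u hu
    exact key m p hp v hv k u hu
  obtain ⟨q, hq⟩ := key2 _ hm (cov R X) (cov_surj X) v hv k u hu
  have := rk_le X q hq
  omega

/-- Finitely generated modules, bundled. -/
structure FGM (R : Type u) [CommRing R] where
  /-- The underlying type. -/
  car : Type u
  [grp : AddCommGroup car]
  [mod : Module R car]
  [fin : Module.Finite R car]

attribute [instance] FGM.grp FGM.mod FGM.fin

/-- The first syzygy. -/
noncomputable def syz (X : FGM R) : FGM R := ⟨LinearMap.ker (cov R X.car)⟩

/-- The syzygies in a minimal free resolution. -/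
noncomputable def sy (X : FGM R) : ℕ → FGM R
  | 0 => X
  | n + 1 => syz (sy X n)

/-- The Betti numbers. -/
noncomputable def bt (X : FGM R) (n : ℕ) : ℕ := rk R (sy X n).car

/-- The inclusion of a syzygy in a free module. -/
noncomputable def inc (X : FGM R) (n : ℕ) : (sy X (n + 1)).car →ₗ[R] (Fin (bt X n) → R) :=
  (LinearMap.ker (cov R (sy X n).car)).subtype

/-- The projection of a free module on a syzygy. -/
noncomputable def pro (X : FGM R) (n : ℕ) : (Fin (bt X n) → R) →ₗ[R] (sy X n).car :=
  cov R (sy X n).car

lemma inc_inj (X : FGM R) (n : ℕ) : Function.Injective (inc X n) :=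
  Submodule.injective_subtype _

lemma pro_surj (X : FGM R) (n : ℕ) : Function.Surjective (pro X n) := cov_surj _

lemma inc_pro (X : FGM R) (n : ℕ) : Function.Exact (inc X n) (pro X n) :=
  LinearMap.exact_subtype_ker_map _

lemma inc_mem (X : FGM R) (n : ℕ) (x : (sy X (n + 1)).car) (k : Fin (bt X n)) :
    inc X n x k ∈ maximalIdeal R :=
  ker_cov_mem _ _ x.2 k

end cover

end SAC84
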