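import Mathlib
import Pool.Agent.Lib.SAC84.Cover84

/-!
Two-sided minimal exact sequences of finite free modules over a local ring.
-/

set_option autoImplicit false

open IsLocalRing

universe u

namespace SAC84

/-- A two-sided minimal exact sequence of non-zero finite free modules, given by its syzygy
modules `M i` and the short exact sequences `0 → M (i + 1) → R ^ (b i) → M i → 0`. -/
structure TS (R : Type u) [CommRing R] [IsLocalRing R] where
  /-- The syzygy modules. -/
  M : ℤ → FGM R
  /-- The ranks of the free modules. -/
  b : ℤ → ℕ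
  /-- The inclusions. -/
  inc : ∀ i, (M (i + 1)).car →ₗ[R] (Fin (b i) → R)
  /-- The projections. -/
  pro : ∀ i, (Fin (b i) → R) →ₗ[R] (M i).car
  inj : ∀ i, Function.Injective (inc i)
  surj : ∀ i, Function.Surjective (pro i)
  ex : ∀ i, Function.Exact (inc i) (pro i)
  mem : ∀ i (x : (M (i + 1)).car) (k : Fin (b i)), inc i x k ∈ maximalIdeal R
  pos : ∀ i, 1 ≤ b i

end SAC84
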