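import Mathlib

/-!
Helper lemmas on `Ext` over a commutative ring in terms of linear maps:
dimension shifting, lifting and extension of linear maps.
-/

set_option autoImplicit false

open CategoryTheory

universe u

namespace SAC84

variable (R : Type u) [CommRing R] [HasExt.{u} (ModuleCat.{u} R)]

/-- `Ext^n_R(X,Y) = 0`. -/
def ExtZ (X Y : Type u) [AddCommGroup X] [Module R X] [AddCommGroup Y] [Module R Y]
    (n : ℕ) : Prop :=
  Subsingleton (Abelian.Ext (ModuleCat.of R X) (ModuleCat.of R Y) n)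

variable {R}

section

variable {K F X Y Z : Type u} [AddCommGroup K] [Module R K] [AddCommGroup F] [Module R F]
  [AddCommGroup X] [Module R X] [AddCommGroup Y] [Module R Y] [AddCommGroup Z] [Module R Z]

/-- The short complex of a pair of linear maps with zero composite. -/
abbrev sc (f : K →ₗ[R] F) (g : F →ₗ[R] X) (h : g ∘ₗ f = 0) :
    ShortComplex (ModuleCat.{u} R) :=
  ShortComplex.mk (ModuleCat.ofHom f) (ModuleCat.ofHom g)
    (by rw [← ModuleCat.ofHom_comp, h]; rfl)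

omit [HasExt.{u} (ModuleCat.{u} R)] in
lemma sc_exact (f : K →ₗ[R] F) (g : F →ₗ[R] X) (hf : Function.Injective f)
    (hg : Function.Surjective g) (H : Function.Exact f g) :
    (sc f g H.linearMap_comp_eq_zero).ShortExact :=
  ModuleCat.shortComplex_shortExact _ H hf hg

lemma ExtZ.shift_left {f : K →ₗ[R] F} {g : F →ₗ[R] X} (hf : Function.Injective f)
    (hg : Function.Surjective g) (H : Function.Exact f g) [Module.Projective R F]
    {n : ℕ} (h : ExtZ R X Y (n + 2)) : ExtZ R K Y (n + 1) := by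
  have hS := sc_exact f g hf hg H
  have hP : Projective (ModuleCat.of R F) := inferInstance
  refine subsingleton_of_forall_eq 0 fun x => ?_
  have h0 : hS.extClass.comp x (by omega : 1 + (n + 1) = n + 2) = 0 :=
    @Subsingleton.elim _ h _ _
  obtain ⟨y, hy⟩ := Abelian.Ext.contravariant_sequence_exact₁ hS (ModuleCat.of R Y) x
    (by omega) h0
  have hy0 : y = 0 := Abelian.Ext.eq_zero_of_projective (P := ModuleCat.of R F) y
  rw [← hy, hy0, Abelian.Ext.comp_zero]

lemma ExtZ.shift_right {f : K →ₗ[R] F} {g : F →ₗ[R] X} (hf : Function.Injective f)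
    (hg : Function.Surjective g) (H : Function.Exact f g)
    {n : ℕ} (h : ExtZ R Z X n) (h' : ExtZ R Z F (n + 1)) : ExtZ R Z K (n + 1) := by
  have hS := sc_exact f g hf hg H
  refine subsingleton_of_forall_eq 0 fun x => ?_
  have h0 : x.comp (Abelian.Ext.mk₀ (ModuleCat.ofHom f)) (add_zero (n + 1)) = 0 :=
    @Subsingleton.elim _ h' _ _
  obtain ⟨y, hy⟩ := Abelian.Ext.covariant_sequence_exact₁ (ModuleCat.of R Z) hS x h0 rfl
  have hy0 : y = 0 := @Subsingleton.elim _ h _ _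
  rw [← hy, hy0, Abelian.Ext.zero_comp]

lemma ExtZ.lift {f : K →ₗ[R] F} {g : F →ₗ[R] X} (hf : Function.Injective f)
    (hg : Function.Surjective g) (H : Function.Exact f g) (h : ExtZ R Z K 1)
    (φ : Z →ₗ[R] X) : ∃ ψ : Z →ₗ[R] F, g ∘ₗ ψ = φ := by
  have hS := sc_exact f g hf hg H
  have h0 : (Abelian.Ext.mk₀ (ModuleCat.ofHom φ)).comp hS.extClass (zero_add 1) = 0 :=
    @Subsingleton.elim _ h _ _
  obtain ⟨y, hy⟩ := Abelian.Ext.covariant_sequence_exact₃ (ModuleCat.of R Z) hS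
    (Abelian.Ext.mk₀ (ModuleCat.ofHom φ)) (zero_add 1) h0
  obtain ⟨ψ, rfl⟩ := (Abelian.Ext.mk₀_bijective _ _).2 y
  rw [Abelian.Ext.mk₀_comp_mk₀] at hy
  have := (Abelian.Ext.mk₀_bijective _ _).1 hy
  refine ⟨ψ.hom, ?_⟩
  have h2 := congrArg ModuleCat.Hom.hom this
  simpa using h2

lemma ExtZ.extend {f : K →ₗ[R] F} {g : F →ₗ[R] X} (hf : Function.Injective f)
    (hg : Function.Surjective g) (H : Function.Exact f g) (h : ExtZ R X Y 1)
    (φ : K →ₗ[R] Y) : ∃ ψ : F →ₗ[R] Y, ψ ∘ₗ f = φ := by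
  have hS := sc_exact f g hf hg H
  have h0 : hS.extClass.comp (Abelian.Ext.mk₀ (ModuleCat.ofHom φ)) (add_zero 1) = 0 :=
    @Subsingleton.elim _ h _ _
  obtain ⟨y, hy⟩ := Abelian.Ext.contravariant_sequence_exact₁ hS (ModuleCat.of R Y)
    (Abelian.Ext.mk₀ (ModuleCat.ofHom φ)) (add_zero 1) h0
  obtain ⟨ψ, rfl⟩ := (Abelian.Ext.mk₀_bijective _ _).2 y
  rw [Abelian.Ext.mk₀_comp_mk₀] at hy
  have := (Abelian.Ext.mk₀_bijective _ _).1 hy
  refine ⟨ψ.hom, ?_⟩
  have h2 := congrArg ModuleCat.Hom.hom this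
  simpa using h2

lemma ExtZ.pi {m n : ℕ} (h : ExtZ R Z R n) : ExtZ R Z (Fin m → R) n := by
  refine subsingleton_of_forall_eq 0 fun x => ?_
  have hid : (𝟙 (ModuleCat.of R (Fin m → R))) =
      ∑ i, (ModuleCat.ofHom (LinearMap.single R (fun _ : Fin m => R) i ∘ₗ
        LinearMap.proj (R := R) (φ := fun _ : Fin m => R) i)) := by
    ext v j
    simp [ModuleCat.hom_sum, Pi.single_apply]
  have h1 : x = x.comp (Abelian.Ext.mk₀ (𝟙 _)) (add_zero n) := by simp
  rw [h1, hid, Abelian.Ext.mk₀_sum, Abelian.Ext.comp_sum]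
  refine Finset.sum_eq_zero fun i _ => ?_
  rw [ModuleCat.ofHom_comp, ← Abelian.Ext.mk₀_comp_mk₀,
    ← Abelian.Ext.comp_assoc_of_third_deg_zero]
  have h2 : x.comp (Abelian.Ext.mk₀ (ModuleCat.ofHom
      (LinearMap.proj (R := R) (φ := fun _ : Fin m => R) i))) (add_zero n) = 0 :=
    @Subsingleton.elim _ h _ _
  rw [h2, Abelian.Ext.zero_comp]

end

end SAC84
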