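import Mathlib
import Pool.Agent.Lib.SAC84.Shift84
import Pool.Agent.Lib.SAC84.Cover84

/-!
The key inequality for lengths of modules of homomorphisms between syzygies over a local ring
whose maximal ideal has fourth power zero.
-/

set_option autoImplicit false

open CategoryTheory IsLocalRing

universe u

namespace SAC84

section basic

variable {R : Type u} [CommRing R] [IsLocalRing R] [IsNoetherianRing R] [IsArtinianRing R]

omit [IsNoetherianRing R] [IsArtinianRing R] in
lemma len_residue : Module.length R (R ⧸ maximalIdeal R) = 1 := by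
  have : IsSimpleModule R (R ⧸ maximalIdeal R) :=
    isSimpleModule_iff_isCoatom.2 (maximalIdeal.isMaximal R).out
  exact Module.length_eq_one R _

omit [IsArtinianRing R] in
/-- A module killed by the maximal ideal and generated by `n` elements has length at most `n`. -/
lemma ln_le_of_killed [IsArtinianRing R] {H : Type u} [AddCommGroup H] [Module R H]
    [Module.Finite R H]
    (hk : ∀ a ∈ maximalIdeal R, ∀ x : H, a • x = 0) {n : ℕ} (p : (Fin n → R) →ₗ[R] H)
    (hp : Function.Surjective p) : ln R H ≤ n := by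
  let q : (Fin n → R ⧸ maximalIdeal R) →ₗ[R] H :=
    ∑ i, (Submodule.liftQ (maximalIdeal R)
      (LinearMap.toSpanSingleton R H (p (Pi.single i 1)))
        (fun a ha => by simp [hk a ha])) ∘ₗ LinearMap.proj i
  have hq : Function.Surjective q := by
    intro y
    obtain ⟨v, rfl⟩ := hp y
    refine ⟨fun i => Submodule.Quotient.mk (v i), ?_⟩
    have h1 : p v = ∑ j, v j • p (Pi.single j 1) := by
      conv_lhs => rw [← LinearMap.sum_single_apply (fun _ : Fin n => R) v]
      rw [map_sum]
      refine Finset.sum_congr rfl fun j _ => ?_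
      rw [← map_smul]
      congr 1
      ext t
      simp [Pi.single_apply]
    rw [h1]
    simp only [q, LinearMap.sum_apply]
    refine Finset.sum_congr rfl fun j _ => ?_
    rfl
  have h2 := ln_le_surj hq
  rw [ln_pi] at h2
  have h3 : ln R (R ⧸ maximalIdeal R) = 1 := by
    rw [ln, len_residue]
    rfl
  rw [h3, mul_one] at h2
  exact h2

end basic

section pc

variable {R : Type u} [CommRing R] {X Y Z : Type u} [AddCommGroup X] [Module R X]
  [AddCommGroup Y] [Module R Y] [AddCommGroup Z] [Module R Z]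

/-- Composition with a fixed linear map on the left. -/
def pc (f : X →ₗ[R] Y) : (Z →ₗ[R] X) →ₗ[R] (Z →ₗ[R] Y) where
  toFun g := f ∘ₗ g
  map_add' g h := LinearMap.comp_add _ _ _
  map_smul' a g := LinearMap.comp_smul _ _ _

lemma pc_inj {f : X →ₗ[R] Y} (hf : Function.Injective f) :
    Function.Injective (pc (Z := Z) f) := by
  intro g h hgh
  ext x
  exact hf (congrArg (fun t => t x) hgh)

end pc

section ext

variable {R : Type u} [CommRing R] [IsLocalRing R] [IsNoetherianRing R]
  [HasExt.{u} (ModuleCat.{u} R)]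

lemma ext_sy_left (M : FGM R) (Y : Type u) [AddCommGroup Y] [Module R Y] (i : ℕ) :
    ∀ n, ExtZ R M.car Y (n + 1 + i) → ExtZ R (sy M i).car Y (n + 1) := by
  induction i with
  | zero => intro n h; exact h
  | succ i ih =>
    intro n h
    have h1 : ExtZ R (sy M i).car Y (n + 1 + 1) := ih (n + 1) (by
      have : n + 1 + (i + 1) = n + 1 + 1 + i := by omega
      rwa [this] at h)
    exact ExtZ.shift_left (inc_inj M i) (pro_surj M i) (inc_pro M i) h1

lemma ext_sy_right (M : FGM R) (hR : ∀ n, ExtZ R M.car R (n + 1)) (j : ℕ) :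
    ∀ n, ExtZ R M.car M.car n → ExtZ R M.car (sy M j).car (n + j) := by
  induction j with
  | zero => intro n h; exact h
  | succ j ih =>
    intro n h
    have h1 := ih n h
    exact ExtZ.shift_right (inc_inj M j) (pro_surj M j) (inc_pro M j) h1 (ExtZ.pi (hR _))

lemma ext_sy_sy (M : FGM R) (hR : ∀ n, ExtZ R M.car R (n + 1)) {N : ℕ}
    (hM : ∀ n, N ≤ n → ExtZ R M.car M.car n) {i j n : ℕ} (h : N + j ≤ n + 1 + i) :
    ExtZ R (sy M i).car (sy M j).car (n + 1) := by
  refine ext_sy_left M _ i n ?_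
  obtain ⟨m, hm⟩ : ∃ m, n + 1 + i = m + j := ⟨n + 1 + i - j, by omega⟩
  rw [hm]
  exact ext_sy_right M hR j m (hM m (by omega))

lemma ext_sy_ring (M : FGM R) (hR : ∀ n, ExtZ R M.car R (n + 1)) (i n : ℕ) :
    ExtZ R (sy M i).car R (n + 1) := by
  refine ext_sy_left M _ i n ?_
  have : n + 1 + i = (n + i) + 1 := by omega
  rw [this]
  exact hR _

end ext

section lengths

variable {R : Type u} [CommRing R] [IsLocalRing R] [IsNoetherianRing R] [IsArtinianRing R]

lemma ln_sy (M : FGM R) (i : ℕ) :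
    ln R (sy M i).car + ln R (sy M (i + 1)).car = bt M i * ln R R := by
  rw [← ln_pi, ln_add (inc_inj M i) (pro_surj M i) (inc_pro M i), add_comm]

variable [HasExt.{u} (ModuleCat.{u} R)]

/-- The length of the module of homomorphisms. -/
noncomputable def hl (M : FGM R) (i j : ℕ) : ℕ := ln R ((sy M i).car →ₗ[R] (sy M j).car)

lemma hl_add (M : FGM R) (i j : ℕ) (h : ExtZ R (sy M i).car (sy M j).car 1) :
    hl M i j + hl M (i + 1) j = bt M i * ln R (sy M j).car := by
  have h1 := ln_add (f := LinearMap.lcomp R (sy M j).car (pro M i))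
    (g := LinearMap.lcomp R (sy M j).car (inc M i))
    (LinearMap.lcomp_injective_of_surjective _ (pro_surj M i))
    (fun φ => ExtZ.extend (inc_inj M i) (pro_surj M i) (inc_pro M i) h φ)
    (LinearMap.exact_lcomp_of_exact_of_surjective _ (inc_pro M i) (pro_surj M i))
  rw [← ln_eq_equiv (homPi (R := R) (Y := (sy M j).car) (bt M i)), ln_pi] at h1
  exact h1.symm

/-- Every homomorphism between syzygies far apart comes from the free modules. -/
lemma factor (M : FGM R) (i j : ℕ) (h1 : ExtZ R (sy M (i + 1)).car (sy M (j + 1)).car 1)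
    (h2 : ExtZ R (sy M i).car R 1) (φ : (sy M (i + 1)).car →ₗ[R] (sy M j).car) :
    ∃ ψ : (Fin (bt M i) → R) →ₗ[R] (Fin (bt M j) → R), pro M j ∘ₗ ψ ∘ₗ inc M i = φ := by
  obtain ⟨χ, hχ⟩ := ExtZ.lift (inc_inj M j) (pro_surj M j) (inc_pro M j) h1 φ
  obtain ⟨ψ, hψ⟩ := ExtZ.extend (inc_inj M i) (pro_surj M i) (inc_pro M i)
    (Y := Fin (bt M j) → R) (ExtZ.pi h2) χ
  exact ⟨ψ, by rw [hψ, hχ]⟩

/-- Values of homomorphisms between syzygies far apart lie in the square of the maximal ideal. -/
lemma factor_sq (M : FGM R) (i j : ℕ)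
    (h1 : ExtZ R (sy M (i + 1)).car (sy M (j + 2)).car 1)
    (h2 : ExtZ R (sy M i).car R 1) (φ : (sy M (i + 1)).car →ₗ[R] (sy M (j + 1)).car)
    (x : (sy M (i + 1)).car) (t : Fin (bt M j)) :
    inc M j (φ x) t ∈ maximalIdeal R ^ 2 := by
  obtain ⟨ψ, rfl⟩ := factor M i (j + 1) h1 h2 φ
  let L : (Fin (bt M i) → R) →ₗ[R] R :=
    (LinearMap.proj t) ∘ₗ inc M j ∘ₗ pro M (j + 1) ∘ₗ ψ
  have hL : ∀ v, L v = ∑ s, v s • L (Pi.single s 1) := by
    intro v
    conv_lhs => rw [← LinearMap.sum_single_apply (fun _ : Fin (bt M i) => R) v]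
    rw [map_sum]
    refine Finset.sum_congr rfl fun j _ => ?_
    rw [← map_smul]
    congr 1
    ext t
    simp [Pi.single_apply]
  change L (inc M i x) ∈ _
  rw [hL, pow_two]
  exact Ideal.sum_mem _ fun s _ => Ideal.mul_mem_mul (inc_mem M i x s) (inc_mem M j _ t)

/-- The upper bound for the length of the module of homomorphisms. -/
lemma hl_le (M : FGM R) (h4 : maximalIdeal R ^ 4 = ⊥) (i j : ℕ)
    (h1 : ExtZ R (sy M (i + 1)).car (sy M (j + 2)).car 1)
    (h2 : ExtZ R (sy M i).car R 1) :
    hl M (i + 1) (j + 1) ≤ bt M i * bt M (j + 1) +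
      ln R (maximalIdeal R).annihilator * (bt M (i + 1) * bt M j) := by
  set H := (sy M (i + 1)).car →ₗ[R] (sy M (j + 1)).car with hH
  let W : Submodule R H := maximalIdeal R • ⊤
  have hW : ln R H = ln R W + ln R (H ⧸ W) := ln_sub_add W
  have hq : ln R (H ⧸ W) ≤ bt M i * bt M (j + 1) := by
    let Φ : ((Fin (bt M i) → R) →ₗ[R] (Fin (bt M (j + 1)) → R)) →ₗ[R] H :=
      (pc (pro M (j + 1))) ∘ₗ (LinearMap.lcomp R _ (inc M i))
    have hΦ : Function.Surjective Φ := by
      intro φ
      obtain ⟨ψ, hψ⟩ := factor M i (j + 1) h1 h2 φ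
      exact ⟨ψ, hψ⟩
    let e : (Fin (bt M i * bt M (j + 1)) → R) ≃ₗ[R]
        ((Fin (bt M i) → R) →ₗ[R] (Fin (bt M (j + 1)) → R)) :=
      (LinearEquiv.funCongrLeft R R (finProdFinEquiv (m := bt M i) (n := bt M (j + 1)))) ≪≫ₗ
        (LinearEquiv.curry R R (Fin (bt M i)) (Fin (bt M (j + 1)))) ≪≫ₗ homPi _
    refine ln_le_of_killed (fun a ha x => ?_) (W.mkQ ∘ₗ Φ ∘ₗ e.toLinearMap)
      (W.mkQ_surjective.comp (hΦ.comp e.surjective))
    obtain ⟨y, rfl⟩ := W.mkQ_surjective x
    rw [← map_smul]
    exact (Submodule.Quotient.mk_eq_zero W).2 (Submodule.smul_mem_smul ha trivial)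
  have hw : ln R W ≤ ln R (maximalIdeal R).annihilator * (bt M (i + 1) * bt M j) := by
    let Ψ : H →ₗ[R] (Fin (bt M (i + 1)) → (Fin (bt M j) → R)) :=
      (homPi (R := R) (Y := Fin (bt M j) → R) (bt M (i + 1))).symm.toLinearMap ∘ₗ
        (LinearMap.lcomp R (Fin (bt M j) → R) (pro M (i + 1))) ∘ₗ (pc (inc M j))
    have hΨ : ∀ f s t, Ψ f s t = inc M j (f (pro M (i + 1) (Pi.single s 1))) t := by
      intro f s t
      rfl
    have hΨi : Function.Injective Ψ := by
      exact (homPi (R := R) (Y := Fin (bt M j) → R) (bt M (i + 1))).symm.injective.comp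
        ((LinearMap.lcomp_injective_of_surjective _ (pro_surj M (i + 1))).comp
          (pc_inj (inc_inj M j)))
    have hsoc : ∀ f ∈ W, ∀ s t, Ψ f s t ∈ (maximalIdeal R).annihilator := by
      intro f hf s t
      refine Submodule.smul_induction_on hf ?_ ?_
      · intro a ha g _
        rw [map_smul, Pi.smul_apply, Pi.smul_apply, hΨ, Submodule.mem_annihilator]
        intro b hb
        have h5 := factor_sq M i j h1 h2 g (pro M (i + 1) (Pi.single s 1)) t
        have h6 : a * inc M j (g (pro M (i + 1) (Pi.single s 1))) t * b ∈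
            maximalIdeal R ^ 4 := by
          have : maximalIdeal R ^ 4 = maximalIdeal R * maximalIdeal R ^ 2 * maximalIdeal R := by
            ring
          rw [this]
          exact Ideal.mul_mem_mul (Ideal.mul_mem_mul ha h5) hb
        rw [h4] at h6
        simpa [smul_eq_mul] using h6
      · intro f g hf hg
        rw [map_add, Pi.add_apply, Pi.add_apply]
        exact Ideal.add_mem _ hf hg
    let Θ : W →ₗ[R] (Fin (bt M (i + 1)) → (Fin (bt M j) → (maximalIdeal R).annihilator)) :=
      { toFun := fun f s t => ⟨Ψ f.1 s t, hsoc f.1 f.2 s t⟩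
        map_add' := by
          intro f g
          ext s t
          simp
        map_smul' := by
          intro a f
          ext s t
          simp }
    have hΘ : Function.Injective Θ := by
      intro f g hfg
      apply Subtype.ext
      apply hΨi
      ext s t
      have := congrArg (fun z => ((z s t : (maximalIdeal R).annihilator) : R)) hfg
      exact this
    have h7 := ln_le_inj hΘ
    rw [ln_pi, ln_pi] at h7
    calc ln R W ≤ _ := h7
      _ = _ := by ring
  have : hl M (i + 1) (j + 1) = ln R H := rfl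
  rw [this, hW]
  omega

/-- The key inequality for the Betti numbers. -/
theorem key (M : FGM R) (h4 : maximalIdeal R ^ 4 = ⊥) (hR : ∀ n, ExtZ R M.car R (n + 1))
    {N : ℕ} (hM : ∀ n, N ≤ n → ExtZ R M.car M.car n) (i j : ℕ) (h : N + j + 1 ≤ i) :
    ln R R * (bt M (i + 1) * bt M (j + 1)) ≤
      (bt M i + bt M (i + 1)) * (bt M (j + 1) + bt M (j + 2)) +
      ln R (maximalIdeal R).annihilator *
        ((bt M (i + 1) + bt M (i + 2)) * (bt M j + bt M (j + 1))) := by
  have e : ∀ i' j', N + j' ≤ 1 + i' → ExtZ R (sy M i').car (sy M j').car 1 :=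
    fun i' j' h' => ext_sy_sy M hR hM (n := 0) (by omega)
  have er : ∀ i', ExtZ R (sy M i').car R 1 := fun i' => ext_sy_ring M hR i' 0
  have a1 := hl_add M (i + 1) (j + 1) (e _ _ (by omega))
  have a2 := hl_add M (i + 1) (j + 2) (e _ _ (by omega))
  have a3 := ln_sy M (j + 1)
  have u1 := hl_le M h4 i j (e _ _ (by omega)) (er _)
  have u2 := hl_le M h4 (i + 1) j (e _ _ (by omega)) (er _)
  have u3 := hl_le M h4 i (j + 1) (e _ _ (by omega)) (er _)
  have u4 := hl_le M h4 (i + 1) (j + 1) (e _ _ (by omega)) (er _)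
  have a4 : hl M (i + 1) (j + 1) + hl M (i + 2) (j + 1) +
      (hl M (i + 1) (j + 2) + hl M (i + 2) (j + 2)) =
      ln R R * (bt M (i + 1) * bt M (j + 1)) := by
    have : hl M (i + 1) (j + 1) + hl M (i + 2) (j + 1) +
      (hl M (i + 1) (j + 2) + hl M (i + 2) (j + 2)) =
        bt M (i + 1) * (ln R (sy M (j + 1)).car + ln R (sy M (j + 2)).car) := by
      rw [mul_add]
      exact congrArg₂ (· + ·) a1 a2
    rw [this, a3]
    ring
  rw [← a4]
  calc _ ≤ _ := Nat.add_le_add (Nat.add_le_add u1 u2) (Nat.add_le_add u3 u4)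
    _ = _ := by ring

end lengths

end SAC84
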