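import Mathlib
import Pool.Agent.Lib.SAC84.Ineq84

/-!
Betti numbers of a minimal resolution and the lengths of `Ext^n(M, k)`; positivity.
-/

set_option autoImplicit false

open CategoryTheory IsLocalRing

universe u

namespace SAC84

section delta

variable {R : Type u} [CommRing R] [HasExt.{u} (ModuleCat.{u} R)]
variable {K F X Y : Type u} [AddCommGroup K] [Module R K] [AddCommGroup F] [Module R F]
  [AddCommGroup X] [Module R X] [AddCommGroup Y] [Module R Y]

/-- The connecting map is injective when restriction from the middle term is zero. -/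
lemma delta_le {f : K →ₗ[R] F} {g : F →ₗ[R] X} (hf : Function.Injective f)
    (hg : Function.Surjective g) (H : Function.Exact f g) {n : ℕ}
    (h : ∀ y : Abelian.Ext (ModuleCat.of R F) (ModuleCat.of R Y) n,
      (Abelian.Ext.mk₀ (ModuleCat.ofHom f)).comp y (zero_add n) = 0) :
    Module.length R (Abelian.Ext (ModuleCat.of R K) (ModuleCat.of R Y) n) ≤
      Module.length R (Abelian.Ext (ModuleCat.of R X) (ModuleCat.of R Y) (n + 1)) := by
  have hS := sc_exact f g hf hg H
  refine Module.length_le_of_injective
    (hS.extClass.precompOfLinear R (ModuleCat.of R Y) (by omega : 1 + n = n + 1)) ?_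
  rw [injective_iff_map_eq_zero]
  intro x hx
  obtain ⟨y, hy⟩ := Abelian.Ext.contravariant_sequence_exact₁ hS (ModuleCat.of R Y) x
    (by omega : 1 + n = n + 1) hx
  rw [← hy]
  exact h y

end delta

section betti

variable {R : Type u} [CommRing R] [IsLocalRing R] [IsNoetherianRing R]

lemma rk_le_length (X : Type u) [AddCommGroup X] [Module R X] [Module.Finite R X] :
    ((rk R X : ℕ) : ℕ∞) ≤ Module.length R (X →ₗ[R] (R ⧸ maximalIdeal R)) := by
  have hs : Function.Surjective (LinearMap.lcomp R (R ⧸ maximalIdeal R) (cov R X)) := by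
    intro φ
    have hex := LinearMap.exact_lcomp_of_exact_of_surjective (R ⧸ maximalIdeal R)
      (LinearMap.exact_subtype_ker_map (cov R X)) (cov_surj X)
    have : LinearMap.lcomp R (R ⧸ maximalIdeal R) (LinearMap.ker (cov R X)).subtype φ = 0 := by
      ext v
      change φ v.1 = 0
      have h1 : φ v.1 = ∑ s, v.1 s • φ (Pi.single s 1) := by
        conv_lhs => rw [← LinearMap.sum_single_apply (fun _ : Fin (rk R X) => R) v.1]
        rw [map_sum]
        refine Finset.sum_congr rfl fun j _ => ?_
        rw [← map_smul]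
        congr 1
        ext t
        simp [Pi.single_apply]
      rw [h1]
      refine Finset.sum_eq_zero fun s _ => ?_
      obtain ⟨w, hw⟩ := Submodule.mkQ_surjective _ (φ (Pi.single s 1))
      rw [← hw, ← map_smul]
      refine (Submodule.Quotient.mk_eq_zero _).2 ?_
      exact Ideal.mul_mem_right _ _ (ker_cov_mem X v.1 v.2 s)
    exact (hex φ).1 this
  have h1 := Module.length_le_of_surjective _ hs
  rw [← (homPi (R := R) (Y := R ⧸ maximalIdeal R) (rk R X)).length_eq, Module.length_pi,
    len_residue] at h1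
  simpa using h1

variable [HasExt.{u} (ModuleCat.{u} R)]

lemma length_sy (M : FGM R) (i : ℕ) : ∀ n,
    Module.length R (Abelian.Ext (ModuleCat.of R (sy M i).car)
      (ModuleCat.of R (R ⧸ maximalIdeal R)) n) ≤
    Module.length R (Abelian.Ext (ModuleCat.of R M.car)
      (ModuleCat.of R (R ⧸ maximalIdeal R)) (n + i)) := by
  induction i with
  | zero => intro n; exact le_rfl
  | succ i ih =>
    intro n
    have h1 := ih (n + 1)
    have h2 : n + 1 + i = n + (i + 1) := by omega
    rw [h2] at h1
    refine le_trans ?_ h1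
    refine delta_le (inc_inj M i) (pro_surj M i) (inc_pro M i) ?_
    intro y
    cases n with
    | zero =>
      obtain ⟨ψ, rfl⟩ := (Abelian.Ext.mk₀_bijective _ _).2 y
      rw [Abelian.Ext.mk₀_comp_mk₀]
      have : ModuleCat.ofHom (inc M i) ≫ ψ = 0 := by
        ext v
        change ψ.hom (inc M i v) = 0
        have h1 : ψ.hom (inc M i v) = ∑ s, inc M i v s • ψ.hom (Pi.single s 1) := by
          conv_lhs => rw [← LinearMap.sum_single_apply (fun _ : Fin (bt M i) => R) (inc M i v)]
          rw [map_sum]
          refine Finset.sum_congr rfl fun j _ => ?_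
          rw [← map_smul]
          congr 1
          ext t
          simp [Pi.single_apply]
        rw [h1]
        refine Finset.sum_eq_zero fun s _ => ?_
        obtain ⟨w, hw⟩ := Submodule.mkQ_surjective _ (ψ.hom (Pi.single s 1))
        rw [← hw, ← map_smul]
        refine (Submodule.Quotient.mk_eq_zero _).2 ?_
        exact Ideal.mul_mem_right _ _ (inc_mem M i v s)
      rw [this, Abelian.Ext.mk₀_zero]
    | succ n =>
      have : y = 0 := Abelian.Ext.eq_zero_of_projective
        (P := ModuleCat.of R (Fin (bt M i) → R)) y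
      rw [this, Abelian.Ext.comp_zero]

/-- The Betti numbers are at most the lengths of `Ext^n(M, k)`. -/
theorem bt_le_ext (M : FGM R) (n : ℕ) :
    ((bt M n : ℕ) : ℕ∞) ≤ Module.length R (Abelian.Ext (ModuleCat.of R M.car)
      (ModuleCat.of R (R ⧸ maximalIdeal R)) n) := by
  have h1 := length_sy M n 0
  rw [zero_add] at h1
  refine le_trans ?_ h1
  have h2 := rk_le_length (R := R) (sy M n).car
  have e : Abelian.Ext (ModuleCat.of R (sy M n).car) (ModuleCat.of R (R ⧸ maximalIdeal R)) 0
      ≃ₗ[R] ((sy M n).car →ₗ[R] (R ⧸ maximalIdeal R)) :=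
    Abelian.Ext.linearEquiv₀.trans (ModuleCat.homLinearEquiv)
  rw [e.length_eq]
  exact h2

omit [HasExt.{u} (ModuleCat.{u} R)] in
lemma exists_socle (h4 : maximalIdeal R ^ 4 = ⊥) :
    ∃ s : R, s ≠ 0 ∧ ∀ a ∈ maximalIdeal R, s * a = 0 := by
  classical
  have hex : ∃ n, maximalIdeal R ^ n = ⊥ := ⟨4, h4⟩
  have h0 : Nat.find hex ≠ 0 := by
    intro h
    have h1 := Nat.find_spec hex
    rw [h, pow_zero, Ideal.one_eq_top] at h1
    exact top_ne_bot h1
  obtain ⟨m, hm⟩ := Nat.exists_eq_succ_of_ne_zero h0
  have h1 : maximalIdeal R ^ m ≠ ⊥ := Nat.find_min hex (by omega)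
  obtain ⟨s, hs, hs0⟩ := Submodule.exists_mem_ne_zero_of_ne_bot h1
  refine ⟨s, hs0, fun a ha => ?_⟩
  have h2 := Nat.find_spec hex
  rw [hm, pow_succ] at h2
  have h3 : s * a ∈ maximalIdeal R ^ m * maximalIdeal R := Ideal.mul_mem_mul hs ha
  rw [h2] at h3
  simpa using h3

omit [HasExt.{u} (ModuleCat.{u} R)] in
lemma free_of_free_syz (h4 : maximalIdeal R ^ 4 = ⊥) (M : FGM R) (i : ℕ)
    (h : Module.Free R (sy M (i + 1)).car) : Module.Free R (sy M i).car := by
  obtain ⟨s, hs0, hs⟩ := exists_socle h4
  have hz : ∀ x : (sy M (i + 1)).car, x = 0 := by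
    have h1 : ∀ x : (sy M (i + 1)).car, s • x = 0 := by
      intro x
      apply inc_inj M i
      rw [map_smul, map_zero]
      ext k
      exact hs _ (inc_mem M i x k)
    let B := Module.Free.chooseBasis R (sy M (i + 1)).car
    intro x
    apply B.ext_elem
    intro j
    exfalso
    have h2 := congrArg (fun z => B.repr z j) (h1 (B j))
    simp at h2
    exact hs0 h2
  have hinj : Function.Injective (pro M i) := by
    rw [injective_iff_map_eq_zero]
    intro v hv
    obtain ⟨x, rfl⟩ := (inc_pro M i v).1 hv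
    rw [hz x, map_zero]
  exact Module.Free.of_equiv (LinearEquiv.ofBijective (pro M i) ⟨hinj, pro_surj M i⟩)

omit [HasExt.{u} (ModuleCat.{u} R)] in
lemma bt_pos (h4 : maximalIdeal R ^ 4 = ⊥) (M : FGM R) (h : ¬ Module.Free R M.car) (i : ℕ) :
    1 ≤ bt M i := by
  have h1 : ∀ i, ¬ Module.Free R (sy M i).car := by
    intro i
    induction i with
    | zero => exact h
    | succ i ih => exact fun h2 => ih (free_of_free_syz h4 M i h2)
  by_contra h2
  have h3 : bt M i = 0 := by omega
  refine h1 i ?_
  have h4 : ∀ x : (sy M i).car, x = 0 := by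
    intro x
    obtain ⟨v, rfl⟩ := pro_surj M i x
    have : v = 0 := by
      ext k
      rw [h3] at k
      exact k.elim0
    rw [this, map_zero]
  have : Subsingleton (sy M i).car := ⟨fun a b => by rw [h4 a, h4 b]⟩
  infer_instance

end betti

end SAC84
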