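import Mathlib
import Pool.Agent.Lib.SAC84.Betti84

/-!
Lengths of the modules `Ext^n(Z, Y)`: inequalities from the long exact sequences.
-/

set_option autoImplicit false

open CategoryTheory IsLocalRing

universe u

namespace SAC84

section mid

variable {R : Type u} [CommRing R] {X Y Z : Type u} [AddCommGroup X] [Module R X]
  [AddCommGroup Y] [Module R Y] [AddCommGroup Z] [Module R Z]

lemma len_mid {f : X →ₗ[R] Y} {g : Y →ₗ[R] Z} (H : Function.Exact f g) :
    Module.length R Y ≤ Module.length R X + Module.length R Z := by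
  have h1 := Module.length_eq_add_of_exact (LinearMap.range f).subtype
    (LinearMap.range f).mkQ (LinearMap.range f).injective_subtype
    (LinearMap.range f).mkQ_surjective (LinearMap.exact_subtype_mkQ _)
  rw [h1]
  refine add_le_add (Module.length_le_of_surjective f.rangeRestrict f.surjective_rangeRestrict) ?_
  refine Module.length_le_of_injective ((LinearMap.range f).liftQ g ?_) ?_
  · rintro _ ⟨x, rfl⟩
    exact H.apply_apply_eq_zero x
  · rw [← LinearMap.ker_eq_bot, Submodule.ker_liftQ_eq_bot]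
    intro y hy
    exact (H y).1 hy

end mid

section el

variable (R : Type u) [CommRing R] [HasExt.{u} (ModuleCat.{u} R)]

/-- The length of `Ext^n(Z, Y)`. -/
noncomputable def el (Z Y : Type u) [AddCommGroup Z] [Module R Z] [AddCommGroup Y] [Module R Y]
    (n : ℕ) : ℕ∞ :=
  Module.length R (Abelian.Ext (ModuleCat.of R Z) (ModuleCat.of R Y) n)

variable {R}

variable {K F X Y Y' Z : Type u} [AddCommGroup K] [Module R K] [AddCommGroup F] [Module R F]
  [AddCommGroup X] [Module R X] [AddCommGroup Y] [Module R Y] [AddCommGroup Y'] [Module R Y']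
  [AddCommGroup Z] [Module R Z]

/-- The map on `Ext` induced by a linear map in the second variable. -/
noncomputable def pf (Z : Type u) [AddCommGroup Z] [Module R Z] (g : F →ₗ[R] X) (n : ℕ) :
    Abelian.Ext (ModuleCat.of R Z) (ModuleCat.of R F) n →ₗ[R]
      Abelian.Ext (ModuleCat.of R Z) (ModuleCat.of R X) n :=
  (Abelian.Ext.mk₀ (ModuleCat.ofHom g)).postcompOfLinear R (ModuleCat.of R Z) (add_zero n)

lemma pf_apply (g : F →ₗ[R] X) (n : ℕ)
    (y : Abelian.Ext (ModuleCat.of R Z) (ModuleCat.of R F) n) :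
    pf Z g n y = y.comp (Abelian.Ext.mk₀ (ModuleCat.ofHom g)) (add_zero n) := rfl

lemma pf_comp (f : K →ₗ[R] F) (g : F →ₗ[R] X) (n : ℕ)
    (y : Abelian.Ext (ModuleCat.of R Z) (ModuleCat.of R K) n) :
    pf Z (g ∘ₗ f) n y = pf Z g n (pf Z f n y) := by
  rw [pf_apply, pf_apply, pf_apply, ModuleCat.ofHom_comp, ← Abelian.Ext.mk₀_comp_mk₀,
    ← Abelian.Ext.comp_assoc_of_third_deg_zero]

lemma pf_id (n : ℕ) (y : Abelian.Ext (ModuleCat.of R Z) (ModuleCat.of R K) n) :
    pf Z (LinearMap.id : K →ₗ[R] K) n y = y := by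
  rw [pf_apply]
  exact Abelian.Ext.comp_mk₀_id y

lemma pf_zero (n : ℕ) (y : Abelian.Ext (ModuleCat.of R Z) (ModuleCat.of R K) n) :
    pf Z (0 : K →ₗ[R] F) n y = 0 := by
  rw [pf_apply]
  have : ModuleCat.ofHom (0 : K →ₗ[R] F) = 0 := rfl
  rw [this, Abelian.Ext.mk₀_zero, Abelian.Ext.comp_zero]

lemma pf_add (f g : K →ₗ[R] F) (n : ℕ)
    (y : Abelian.Ext (ModuleCat.of R Z) (ModuleCat.of R K) n) :
    pf Z (f + g) n y = pf Z f n y + pf Z g n y := by
  rw [pf_apply, pf_apply, pf_apply]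
  have : ModuleCat.ofHom (f + g) = ModuleCat.ofHom f + ModuleCat.ofHom g := rfl
  rw [this, Abelian.Ext.mk₀_add, Abelian.Ext.comp_add]

lemma el_eq_equiv (e : Y ≃ₗ[R] Y') (n : ℕ) : el R Z Y n = el R Z Y' n := by
  refine le_antisymm ?_ ?_
  · refine Module.length_le_of_injective (pf Z e.toLinearMap n) ?_
    refine Function.LeftInverse.injective (g := pf Z e.symm.toLinearMap n) fun y => ?_
    rw [← pf_comp]
    have : e.symm.toLinearMap ∘ₗ e.toLinearMap = LinearMap.id := by ext x; simp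
    rw [this, pf_id]
  · refine Module.length_le_of_injective (pf Z e.symm.toLinearMap n) ?_
    refine Function.LeftInverse.injective (g := pf Z e.toLinearMap n) fun y => ?_
    rw [← pf_comp]
    have : e.toLinearMap ∘ₗ e.symm.toLinearMap = LinearMap.id := by ext x; simp
    rw [this, pf_id]

section ses

variable {f : K →ₗ[R] F} {g : F →ₗ[R] X} (hf : Function.Injective f)
    (hg : Function.Surjective g) (H : Function.Exact f g)

include hf hg H

lemma el_mid (n : ℕ) : el R Z F n ≤ el R Z K n + el R Z X n := by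
  have hS := sc_exact f g hf hg H
  refine len_mid (f := pf Z f n) (g := pf Z g n) ?_
  intro y
  constructor
  · intro hy
    obtain ⟨x, hx⟩ := Abelian.Ext.covariant_sequence_exact₂ (ModuleCat.of R Z) hS y hy
    exact ⟨x, hx⟩
  · rintro ⟨x, rfl⟩
    rw [← pf_comp, H.linearMap_comp_eq_zero, pf_zero]

lemma el_left (n : ℕ) : el R Z K (n + 1) ≤ el R Z X n + el R Z F (n + 1) := by
  have hS := sc_exact f g hf hg H
  refine len_mid (f := hS.extClass.postcompOfLinear R (ModuleCat.of R Z) rfl)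
    (g := pf Z f (n + 1)) ?_
  intro y
  constructor
  · intro hy
    obtain ⟨x, hx⟩ := Abelian.Ext.covariant_sequence_exact₁ (ModuleCat.of R Z) hS y hy rfl
    exact ⟨x, hx⟩
  · rintro ⟨x, rfl⟩
    change (x.comp hS.extClass rfl).comp (Abelian.Ext.mk₀ (sc f g _).f) (add_zero (n + 1)) = 0
    rw [Abelian.Ext.comp_assoc_of_third_deg_zero, hS.extClass_comp, Abelian.Ext.comp_zero]

lemma el_right (n : ℕ) : el R Z X n ≤ el R Z F n + el R Z K (n + 1) := by
  have hS := sc_exact f g hf hg H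
  refine len_mid (f := pf Z g n)
    (g := hS.extClass.postcompOfLinear R (ModuleCat.of R Z) rfl) ?_
  intro y
  constructor
  · intro hy
    obtain ⟨x, hx⟩ := Abelian.Ext.covariant_sequence_exact₃ (ModuleCat.of R Z) hS y rfl hy
    exact ⟨x, hx⟩
  · rintro ⟨x, rfl⟩
    change (x.comp (Abelian.Ext.mk₀ (sc f g _).g) (add_zero n)).comp hS.extClass rfl = 0
    rw [Abelian.Ext.comp_assoc_of_second_deg_zero, hS.comp_extClass, Abelian.Ext.comp_zero]

/-- The long exact sequence breaks up when the maps `Ext(Z, F) → Ext(Z, X)` are zero. -/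
lemma el_eq_succ (n : ℕ)
    (h0 : ∀ y : Abelian.Ext (ModuleCat.of R Z) (ModuleCat.of R F) n, pf Z g n y = 0)
    (h1 : ∀ y : Abelian.Ext (ModuleCat.of R Z) (ModuleCat.of R F) (n + 1),
      pf Z g (n + 1) y = 0) :
    el R Z K (n + 1) = el R Z X n + el R Z F (n + 1) := by
  have hS := sc_exact f g hf hg H
  refine Module.length_eq_add_of_exact
    (hS.extClass.postcompOfLinear R (ModuleCat.of R Z) rfl) (pf Z f (n + 1)) ?_ ?_ ?_
  · rw [injective_iff_map_eq_zero]
    intro y hy
    obtain ⟨x, hx⟩ := Abelian.Ext.covariant_sequence_exact₃ (ModuleCat.of R Z) hS y rfl hy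
    rw [← hx]
    exact h0 x
  · intro y
    obtain ⟨x, hx⟩ := Abelian.Ext.covariant_sequence_exact₂ (ModuleCat.of R Z) hS y (h1 y)
    exact ⟨x, hx⟩
  · intro y
    constructor
    · intro hy
      obtain ⟨x, hx⟩ := Abelian.Ext.covariant_sequence_exact₁ (ModuleCat.of R Z) hS y hy rfl
      exact ⟨x, hx⟩
    · rintro ⟨x, rfl⟩
      change (x.comp hS.extClass rfl).comp (Abelian.Ext.mk₀ (sc f g _).f) (add_zero (n + 1)) = 0
      rw [Abelian.Ext.comp_assoc_of_third_deg_zero, hS.extClass_comp, Abelian.Ext.comp_zero]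

lemma el_eq_zero
    (h0 : ∀ y : Abelian.Ext (ModuleCat.of R Z) (ModuleCat.of R F) 0, pf Z g 0 y = 0) :
    el R Z K 0 = el R Z F 0 := by
  have hS := sc_exact f g hf hg H
  have hm : Mono (ModuleCat.ofHom f) := (ModuleCat.mono_iff_injective _).2 hf
  have hinj : Function.Injective (pf Z f 0) := by
    intro x y hxy
    exact Abelian.Ext.postcomp_mk₀_injective_of_mono (ModuleCat.of R Z) (ModuleCat.ofHom f) hxy
  have hsurj : Function.Surjective (pf Z f 0) := by
    intro y
    obtain ⟨x, hx⟩ := Abelian.Ext.covariant_sequence_exact₂ (ModuleCat.of R Z) hS y (h0 y)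
    exact ⟨x, hx⟩
  exact (LinearEquiv.ofBijective (pf Z f 0) ⟨hinj, hsurj⟩).length_eq

lemma el_mid' (n : ℕ) : el R F Y n ≤ el R X Y n + el R K Y n := by
  have hS := sc_exact f g hf hg H
  refine len_mid
    (f := (Abelian.Ext.mk₀ (ModuleCat.ofHom g)).precompOfLinear R (ModuleCat.of R Y) (zero_add n))
    (g := (Abelian.Ext.mk₀ (ModuleCat.ofHom f)).precompOfLinear R (ModuleCat.of R Y)
      (zero_add n)) ?_
  intro y
  constructor
  · intro hy
    obtain ⟨x, hx⟩ := Abelian.Ext.contravariant_sequence_exact₂ hS (ModuleCat.of R Y) y hy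
    exact ⟨x, hx⟩
  · rintro ⟨x, rfl⟩
    change (Abelian.Ext.mk₀ (ModuleCat.ofHom f)).comp
      ((Abelian.Ext.mk₀ (ModuleCat.ofHom g)).comp x (zero_add n)) (zero_add n) = 0
    have h0 : ModuleCat.ofHom f ≫ ModuleCat.ofHom g = 0 := by
      rw [← ModuleCat.ofHom_comp, H.linearMap_comp_eq_zero]
      rfl
    rw [Abelian.Ext.mk₀_comp_mk₀_assoc, h0, Abelian.Ext.mk₀_zero, Abelian.Ext.zero_comp]

lemma el_conn (n : ℕ) : el R X Y (n + 1) ≤ el R K Y n + el R F Y (n + 1) := by
  have hS := sc_exact f g hf hg H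
  refine len_mid
    (f := hS.extClass.precompOfLinear R (ModuleCat.of R Y) (by omega : 1 + n = n + 1))
    (g := (Abelian.Ext.mk₀ (ModuleCat.ofHom g)).precompOfLinear R (ModuleCat.of R Y)
      (zero_add (n + 1))) ?_
  intro y
  constructor
  · intro hy
    obtain ⟨x, hx⟩ := Abelian.Ext.contravariant_sequence_exact₃ hS (ModuleCat.of R Y) y hy
      (by omega : 1 + n = n + 1)
    exact ⟨x, hx⟩
  · rintro ⟨x, rfl⟩
    exact hS.comp_extClass_assoc x (by omega : 1 + n = n + 1)

end ses

end el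

end SAC84
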