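import Mathlib
import Pool.Agent.Lib.SAC84.ExtLen84

/-!
Bounds for the lengths of `Ext` modules by those of the residue field.
-/

set_option autoImplicit false

open CategoryTheory IsLocalRing

universe u

namespace SAC84

section pi

variable {R : Type u} [CommRing R] [HasExt.{u} (ModuleCat.{u} R)]
variable {Y Z : Type u} [AddCommGroup Y] [Module R Y] [AddCommGroup Z] [Module R Z]

lemma pf_sum {K F : Type u} [AddCommGroup K] [Module R K] [AddCommGroup F] [Module R F]
    {ι : Type} (s : Finset ι) (f : ι → (K →ₗ[R] F)) (n : ℕ)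
    (y : Abelian.Ext (ModuleCat.of R Z) (ModuleCat.of R K) n) :
    pf Z (∑ i ∈ s, f i) n y = ∑ i ∈ s, pf Z (f i) n y := by
  classical
  induction s using Finset.induction_on with
  | empty => rw [Finset.sum_empty, Finset.sum_empty, pf_zero]
  | insert a s ha ih => rw [Finset.sum_insert ha, Finset.sum_insert ha, pf_add, ih]

/-- `Ext` into a finite power. -/
noncomputable def piE (m n : ℕ) :
    Abelian.Ext (ModuleCat.of R Z) (ModuleCat.of R (Fin m → Y)) n ≃ₗ[R]
      (Fin m → Abelian.Ext (ModuleCat.of R Z) (ModuleCat.of R Y) n) where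
  toFun x i := pf Z (LinearMap.proj (R := R) (φ := fun _ : Fin m => Y) i) n x
  map_add' x y := by
    ext i
    exact map_add _ x y
  map_smul' a x := by
    ext i
    exact map_smul _ a x
  invFun v := ∑ i, pf Z (LinearMap.single R (fun _ : Fin m => Y) i) n (v i)
  left_inv x := by
    have h : (∑ i, LinearMap.single R (fun _ : Fin m => Y) i ∘ₗ
        LinearMap.proj (R := R) (φ := fun _ : Fin m => Y) i) = LinearMap.id := by
      apply LinearMap.ext
      intro v
      rw [LinearMap.sum_apply]
      exact LinearMap.sum_single_apply (fun _ : Fin m => Y) v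
    conv_rhs => rw [← pf_id n x, ← h, pf_sum]
    exact Finset.sum_congr rfl fun i _ => (pf_comp _ _ _ _).symm
  right_inv v := by
    funext j
    change pf Z (LinearMap.proj (R := R) (φ := fun _ : Fin m => Y) j) n
      (∑ i, pf Z (LinearMap.single R (fun _ : Fin m => Y) i) n (v i)) = v j
    rw [map_sum, Finset.sum_eq_single j]
    · rw [← pf_comp]
      have : LinearMap.proj (R := R) (φ := fun _ : Fin m => Y) j ∘ₗ
          LinearMap.single R (fun _ : Fin m => Y) j = LinearMap.id := by
        ext y
        simp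
      rw [this, pf_id]
    · intro i _ hij
      rw [← pf_comp]
      have : LinearMap.proj (R := R) (φ := fun _ : Fin m => Y) j ∘ₗ
          LinearMap.single R (fun _ : Fin m => Y) i = 0 := by
        ext y
        simp [Pi.single_apply, hij.symm]
      rw [this, pf_zero]
    · intro h
      exact absurd (Finset.mem_univ j) h

lemma el_pi (m n : ℕ) : el R Z (Fin m → Y) n = m * el R Z Y n := by
  rw [el, (piE (R := R) (Y := Y) (Z := Z) m n).length_eq, Module.length_pi]
  simp [el]

lemma el_subsingleton [Subsingleton Y] (n : ℕ) : el R Z Y n = 0 := by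
  rw [el, Module.length_eq_zero_iff]
  refine subsingleton_of_forall_eq 0 fun y => ?_
  rw [← pf_id n y]
  have : (LinearMap.id : Y →ₗ[R] Y) = 0 := by
    ext x
    exact Subsingleton.elim _ _
  rw [this, pf_zero]

lemma el_subsingleton' [Subsingleton Z] (n : ℕ) : el R Z Y n = 0 := by
  rw [el, Module.length_eq_zero_iff]
  refine subsingleton_of_forall_eq 0 fun y => ?_
  have h1 : (Abelian.Ext.mk₀ (𝟙 (ModuleCat.of R Z))).comp y (zero_add n) = y :=
    Abelian.Ext.mk₀_id_comp y
  rw [← h1]
  have h2 : 𝟙 (ModuleCat.of R Z) = 0 := by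
    ext x
    exact Subsingleton.elim (α := Z) _ _
  rw [h2, Abelian.Ext.mk₀_zero, Abelian.Ext.zero_comp]

lemma el_eq_equiv' {Z' : Type u} [AddCommGroup Z'] [Module R Z'] (e : Z ≃ₗ[R] Z') (n : ℕ) :
    el R Z Y n = el R Z' Y n := by
  let F : Abelian.Ext (ModuleCat.of R Z') (ModuleCat.of R Y) n →ₗ[R]
      Abelian.Ext (ModuleCat.of R Z) (ModuleCat.of R Y) n :=
    (Abelian.Ext.mk₀ (ModuleCat.ofHom e.toLinearMap)).precompOfLinear R (ModuleCat.of R Y)
      (zero_add n)
  let G : Abelian.Ext (ModuleCat.of R Z) (ModuleCat.of R Y) n →ₗ[R]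
      Abelian.Ext (ModuleCat.of R Z') (ModuleCat.of R Y) n :=
    (Abelian.Ext.mk₀ (ModuleCat.ofHom e.symm.toLinearMap)).precompOfLinear R (ModuleCat.of R Y)
      (zero_add n)
  have h1 : ∀ y, F (G y) = y := by
    intro y
    change (Abelian.Ext.mk₀ (ModuleCat.ofHom e.toLinearMap)).comp
      ((Abelian.Ext.mk₀ (ModuleCat.ofHom e.symm.toLinearMap)).comp y (zero_add n))
        (zero_add n) = y
    rw [Abelian.Ext.mk₀_comp_mk₀_assoc, ← ModuleCat.ofHom_comp]
    have : e.symm.toLinearMap ∘ₗ e.toLinearMap = LinearMap.id := by ext x; simp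
    rw [this]
    exact Abelian.Ext.mk₀_id_comp y
  have h2 : ∀ y, G (F y) = y := by
    intro y
    change (Abelian.Ext.mk₀ (ModuleCat.ofHom e.symm.toLinearMap)).comp
      ((Abelian.Ext.mk₀ (ModuleCat.ofHom e.toLinearMap)).comp y (zero_add n))
        (zero_add n) = y
    rw [Abelian.Ext.mk₀_comp_mk₀_assoc, ← ModuleCat.ofHom_comp]
    have : e.toLinearMap ∘ₗ e.symm.toLinearMap = LinearMap.id := by ext x; simp
    rw [this]
    exact Abelian.Ext.mk₀_id_comp y
  exact le_antisymm
    (Module.length_le_of_injective G (Function.LeftInverse.injective h1))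
    (Module.length_le_of_injective F (Function.LeftInverse.injective h2))

end pi

section bound

variable {R : Type u} [CommRing R] [IsLocalRing R] [HasExt.{u} (ModuleCat.{u} R)]

lemma simple_equiv {X : Type u} [AddCommGroup X] [Module R X] [h : IsSimpleModule R X] :
    Nonempty (X ≃ₗ[R] (R ⧸ maximalIdeal R)) := by
  obtain ⟨I, hI, ⟨e⟩⟩ := isSimpleModule_iff_quot_maximal.1 h
  rw [IsLocalRing.eq_maximalIdeal hI] at e
  exact ⟨e⟩

lemma el_le_aux {Z : Type u} [AddCommGroup Z] [Module R Z] (n : ℕ)
    {Y : Type u} [AddCommGroup Y] [Module R Y] (h : IsFiniteLength R Y) :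
    el R Z Y n ≤ Module.length R Y * el R Z (R ⧸ maximalIdeal R) n := by
  induction h with
  | of_subsingleton => rw [el_subsingleton]; exact zero_le
  | @of_simple_quotient M _ _ N hs _ ih =>
    have h1 := el_mid (Z := Z) N.injective_subtype N.mkQ_surjective
      (LinearMap.exact_subtype_mkQ N) n
    obtain ⟨e⟩ := simple_equiv (R := R) (X := M ⧸ N)
    rw [el_eq_equiv e] at h1
    have h2 := Module.length_eq_add_of_exact N.subtype N.mkQ N.injective_subtype
      N.mkQ_surjective (LinearMap.exact_subtype_mkQ N)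
    have h3 : Module.length R (M ⧸ N) = 1 := Module.length_eq_one R _
    rw [h2, h3, add_mul, one_mul]
    exact h1.trans (add_le_add ih le_rfl)

lemma el_le_aux' {Y : Type u} [AddCommGroup Y] [Module R Y] (n : ℕ)
    {Z : Type u} [AddCommGroup Z] [Module R Z] (h : IsFiniteLength R Z) :
    el R Z Y n ≤ Module.length R Z * el R (R ⧸ maximalIdeal R) Y n := by
  induction h with
  | of_subsingleton => rw [el_subsingleton']; exact zero_le
  | @of_simple_quotient M _ _ N hs _ ih =>
    have h1 := el_mid' (Y := Y) N.injective_subtype N.mkQ_surjective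
      (LinearMap.exact_subtype_mkQ N) n
    obtain ⟨e⟩ := simple_equiv (R := R) (X := M ⧸ N)
    rw [el_eq_equiv' e] at h1
    have h2 := Module.length_eq_add_of_exact N.subtype N.mkQ N.injective_subtype
      N.mkQ_surjective (LinearMap.exact_subtype_mkQ N)
    have h3 : Module.length R (M ⧸ N) = 1 := Module.length_eq_one R _
    rw [h2, h3, add_mul, one_mul, add_comm (Module.length R N * _)]
    exact h1.trans (add_le_add le_rfl ih)

variable [IsArtinianRing R] [IsNoetherianRing R]

omit [IsLocalRing R] [HasExt.{u} (ModuleCat.{u} R)] [IsNoetherianRing R] in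
lemma fin_len (Y : Type u) [AddCommGroup Y] [Module R Y] [Module.Finite R Y] :
    IsFiniteLength R Y :=
  isFiniteLength_iff_isNoetherian_isArtinian.2 ⟨inferInstance, inferInstance⟩

omit [IsNoetherianRing R] in
lemma el_le (Z Y : Type u) [AddCommGroup Z] [Module R Z] [AddCommGroup Y] [Module R Y]
    [Module.Finite R Y] (n : ℕ) :
    el R Z Y n ≤ (ln R Y : ℕ∞) * el R Z (R ⧸ maximalIdeal R) n := by
  rw [coe_ln]
  exact el_le_aux n (fin_len Y)

omit [IsNoetherianRing R] in
lemma el_le' (Z Y : Type u) [AddCommGroup Z] [Module R Z] [AddCommGroup Y] [Module R Y]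
    [Module.Finite R Z] (n : ℕ) :
    el R Z Y n ≤ (ln R Z : ℕ∞) * el R (R ⧸ maximalIdeal R) Y n := by
  rw [coe_ln]
  exact el_le_aux' n (fin_len Z)

/-- A finitely generated module killed by the maximal ideal is a power of the residue field. -/
lemma killed_equiv {S : Type u} [AddCommGroup S] [Module R S] [Module.Finite R S]
    (hk : ∀ a ∈ maximalIdeal R, ∀ x : S, a • x = 0) :
    Nonempty (S ≃ₗ[R] (Fin (ln R S) → R ⧸ maximalIdeal R)) := by
  let p := cov R S
  let q : (Fin (rk R S) → R ⧸ maximalIdeal R) →ₗ[R] S :=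
    ∑ i, (Submodule.liftQ (maximalIdeal R)
      (LinearMap.toSpanSingleton R S (p (Pi.single i 1)))
        (fun a ha => by simp [hk a ha])) ∘ₗ LinearMap.proj i
  have h0 : ∀ v, q (fun i => Submodule.Quotient.mk (v i)) = p v := by
    intro v
    have h1 : p v = ∑ j, v j • p (Pi.single j 1) := by
      conv_lhs => rw [← LinearMap.sum_single_apply (fun _ : Fin (rk R S) => R) v]
      rw [map_sum]
      refine Finset.sum_congr rfl fun j _ => ?_
      rw [← map_smul]
      congr 1
      ext t
      simp [Pi.single_apply]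
    rw [h1]
    simp only [q, LinearMap.sum_apply]
    refine Finset.sum_congr rfl fun j _ => ?_
    rfl
  have hq : Function.Surjective q := by
    intro y
    obtain ⟨v, rfl⟩ := cov_surj (R := R) S y
    exact ⟨_, h0 v⟩
  have hi : Function.Injective q := by
    rw [injective_iff_map_eq_zero]
    intro w hw
    have h2 : ∀ i, ∃ a : R, Submodule.Quotient.mk a = w i := fun i =>
      Submodule.Quotient.mk_surjective _ (w i)
    choose v hv using h2
    have h3 : w = fun i => Submodule.Quotient.mk (v i) := funext fun i => (hv i).symm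
    rw [h3, h0] at hw
    rw [h3]
    funext i
    exact (Submodule.Quotient.mk_eq_zero _).2 (ker_cov_mem S v hw i)
  let e := LinearEquiv.ofBijective q ⟨hi, hq⟩
  have h4 : ln R S = rk R S := by
    rw [← ln_eq_equiv e, ln_pi]
    have h3 : ln R (R ⧸ maximalIdeal R) = 1 := by
      rw [ln, len_residue]
      rfl
    rw [h3, mul_one]
  rw [h4]
  exact ⟨e.symm⟩

lemma el_killed (Z : Type u) [AddCommGroup Z] [Module R Z]
    {S : Type u} [AddCommGroup S] [Module R S] [Module.Finite R S]
    (hk : ∀ a ∈ maximalIdeal R, ∀ x : S, a • x = 0) (n : ℕ) :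
    el R Z S n = (ln R S : ℕ∞) * el R Z (R ⧸ maximalIdeal R) n := by
  obtain ⟨e⟩ := killed_equiv hk
  rw [el_eq_equiv e, el_pi]

end bound

end SAC84
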