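import Mathlib
import Pool.Agent.Lib.SAC84.Kap84

/-!
The Betti numbers of the residue field as lengths of `Ext^n(k, k)`.
-/

set_option autoImplicit false

open CategoryTheory IsLocalRing

universe u

namespace SAC84

section gen

variable {R : Type u} [CommRing R] [HasExt.{u} (ModuleCat.{u} R)]
variable {Y Z : Type u} [AddCommGroup Y] [Module R Y] [AddCommGroup Z] [Module R Z]

lemma el_proj [Module.Projective R Z] (n : ℕ) : el R Z Y (n + 1) = 0 := by
  have hP : Projective (ModuleCat.of R Z) := inferInstance
  rw [el, Module.length_eq_zero_iff]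
  exact subsingleton_of_forall_eq 0 fun y =>
    Abelian.Ext.eq_zero_of_projective (P := ModuleCat.of R Z) y

lemma el_zero : el R Z Y 0 = Module.length R (Z →ₗ[R] Y) := by
  have e : Abelian.Ext (ModuleCat.of R Z) (ModuleCat.of R Y) 0 ≃ₗ[R] (Z →ₗ[R] Y) :=
    Abelian.Ext.linearEquiv₀.trans (ModuleCat.homLinearEquiv)
  rw [el, e.length_eq]

lemma el_eq_zero_iff (n : ℕ) : el R Z Y n = 0 ↔ ExtZ R Z Y n :=
  Module.length_eq_zero_iff

end gen

section kap

variable {R : Type u} [CommRing R] [IsLocalRing R] [IsNoetherianRing R]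
  [HasExt.{u} (ModuleCat.{u} R)]

lemma el_sy_succ (X : FGM R) (Y : Type u) [AddCommGroup Y] [Module R Y] (i n : ℕ) :
    el R (sy X i).car Y (n + 1) ≤ el R (sy X (i + 1)).car Y n := by
  have h := el_conn (Y := Y) (inc_inj X i) (pro_surj X i) (inc_pro X i) n
  rw [el_proj (Z := Fin (bt X i) → R), add_zero] at h
  exact h

lemma el_sy (X : FGM R) (Y : Type u) [AddCommGroup Y] [Module R Y] (m n : ℕ) :
    el R X.car Y (n + m) ≤ el R (sy X m).car Y n := by
  induction m generalizing n with
  | zero => exact le_rfl
  | succ m ih =>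
    have h1 := ih (n + 1)
    have h2 : n + 1 + m = n + (m + 1) := by omega
    rw [h2] at h1
    exact h1.trans (el_sy_succ X Y m n)

variable [IsArtinianRing R]

lemma el_lt_top (X : FGM R) (Y : Type u) [AddCommGroup Y] [Module R Y] [Module.Finite R Y]
    (n : ℕ) : el R X.car Y n ≠ ⊤ := by
  have h1 := el_sy X Y n 0
  rw [zero_add, el_zero] at h1
  exact ne_top_of_le_ne_top Module.length_ne_top h1

variable (R) in
/-- The residue field as a bundled module. -/
noncomputable def kk : FGM R := ⟨R ⧸ maximalIdeal R⟩

variable (R) in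
/-- The Betti numbers of the residue field. -/
noncomputable def kap (n : ℕ) : ℕ := (el R (R ⧸ maximalIdeal R) (R ⧸ maximalIdeal R) n).toNat

lemma coe_kap (n : ℕ) :
    ((kap R n : ℕ) : ℕ∞) = el R (R ⧸ maximalIdeal R) (R ⧸ maximalIdeal R) n :=
  ENat.natCast_toNat (el_lt_top (kk R) (R ⧸ maximalIdeal R) n)

lemma kap_add (m n : ℕ) : kap R (m + n) ≤ ln R R * kap R m * kap R n := by
  have h1 := el_sy (kk R) (R ⧸ maximalIdeal R) m n
  have h2 := el_le' (R := R) (sy (kk R) m).car (R ⧸ maximalIdeal R) n
  have h3 : ln R (sy (kk R) m).car ≤ bt (kk R) m * ln R R := by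
    rw [← ln_sy]
    omega
  have h4 := bt_le_ext (kk R) m
  have h5 : ((kap R (n + m) : ℕ) : ℕ∞) ≤ ((bt (kk R) m * ln R R * kap R n : ℕ) : ℕ∞) := by
    rw [coe_kap]
    refine (h1.trans h2).trans ?_
    rw [← coe_kap]
    exact_mod_cast Nat.mul_le_mul_right _ h3
  have h6 : bt (kk R) m ≤ kap R m := by
    have : ((bt (kk R) m : ℕ) : ℕ∞) ≤ ((kap R m : ℕ) : ℕ∞) := by
      rw [coe_kap]
      exact h4
    exact_mod_cast this
  have h7 : kap R (n + m) ≤ bt (kk R) m * ln R R * kap R n := by exact_mod_cast h5
  rw [add_comm m n]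
  calc kap R (n + m) ≤ bt (kk R) m * ln R R * kap R n := h7
    _ ≤ kap R m * ln R R * kap R n := by gcongr
    _ = _ := by ring

omit [IsNoetherianRing R] [IsArtinianRing R] [HasExt.{u} (ModuleCat.{u} R)] in
lemma length_end : Module.length R ((R ⧸ maximalIdeal R) →ₗ[R] (R ⧸ maximalIdeal R)) = 1 := by
  have e : ((R ⧸ maximalIdeal R) →ₗ[R] (R ⧸ maximalIdeal R)) ≃ₗ[R] (R ⧸ maximalIdeal R) :=
    { toFun := fun φ => φ 1
      map_add' := fun _ _ => rfl
      map_smul' := fun _ _ => rfl
      invFun := fun y => (maximalIdeal R).liftQ (LinearMap.toSpanSingleton R _ y) (by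
        intro a ha
        rw [LinearMap.mem_ker, LinearMap.toSpanSingleton_apply]
        obtain ⟨b, rfl⟩ := Submodule.mkQ_surjective _ y
        rw [← map_smul]
        exact (Submodule.Quotient.mk_eq_zero _).2 (Ideal.mul_mem_right _ _ ha))
      left_inv := by
        intro φ
        apply LinearMap.ext
        intro x
        obtain ⟨b, rfl⟩ := Submodule.mkQ_surjective _ x
        change b • φ 1 = φ (Submodule.Quotient.mk b)
        rw [← map_smul]
        congr 1
        change Submodule.Quotient.mk (b • (1 : R)) = Submodule.Quotient.mk b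
        rw [smul_eq_mul, mul_one]
      right_inv := by
        intro y
        change (1 : R) • y = y
        exact one_smul _ _ }
  rw [e.length_eq, len_residue]

lemma kap_zero : kap R 0 = 1 := by
  rw [kap, el_zero, length_end]
  rfl

lemma kap_pos_aux (m n : ℕ) (h : kap R n = 0) : kap R (n + m) = 0 := by
  have := kap_add (R := R) n m
  rw [h, mul_zero, zero_mul] at this
  omega

/-- The embedding dimension is at most the first Betti number of the residue field. -/
lemma edim_le_kap : Module.finrank (ResidueField R) (CotangentSpace R) ≤ kap R 1 := by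
  rw [← IsLocalRing.spanFinrank_maximalIdeal_eq_finrank_cotangentSpace]
  have h1 : (maximalIdeal R).spanFinrank ≤ rk R (maximalIdeal R) := by
    let p := cov R (maximalIdeal R)
    let s : Set R := Set.range fun i : Fin (rk R (maximalIdeal R)) =>
      ((p (Pi.single i 1) : maximalIdeal R) : R)
    have hs : Submodule.span R s = maximalIdeal R := by
      apply le_antisymm
      · rw [Submodule.span_le]
        rintro _ ⟨i, rfl⟩
        exact (p (Pi.single i 1)).2
      · intro x hx
        obtain ⟨v, hv⟩ := cov_surj (R := R) (maximalIdeal R) ⟨x, hx⟩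
        have h1 : p v = ∑ j, v j • p (Pi.single j 1) := by
          conv_lhs => rw [← LinearMap.sum_single_apply
            (fun _ : Fin (rk R (maximalIdeal R)) => R) v]
          rw [map_sum]
          refine Finset.sum_congr rfl fun j _ => ?_
          rw [← map_smul]
          congr 1
          ext t
          simp [Pi.single_apply]
        have h2 : x = ∑ j, v j • ((p (Pi.single j 1) : maximalIdeal R) : R) := by
          have h3 := congrArg (fun z => ((z : maximalIdeal R) : R)) (hv.symm.trans h1)
          simp only [AddSubmonoidClass.coe_finsetSum, Submodule.coe_smul] at h3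
          exact h3
        rw [h2]
        exact Submodule.sum_mem _ fun j _ => Submodule.smul_mem _ _
          (Submodule.subset_span ⟨j, rfl⟩)
    have hfin : s.Finite := Set.finite_range _
    have h2 : (maximalIdeal R).spanFinrank ≤ s.ncard := by
      rw [← hs]
      exact Submodule.spanFinrank_span_le_ncard_of_finite hfin
    refine h2.trans ?_
    have h3 := Set.ncard_image_le (s := (Set.univ : Set (Fin (rk R (maximalIdeal R)))))
      (f := fun i : Fin (rk R (maximalIdeal R)) => ((p (Pi.single i 1) : maximalIdeal R) : R))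
      Set.finite_univ
    rw [Set.image_univ, Set.ncard_univ, Nat.card_eq_fintype_card, Fintype.card_fin] at h3
    exact h3
  refine h1.trans ?_
  have h2 := rk_le_length (R := R) (maximalIdeal R)
  have h3 : Module.length R (Abelian.Ext (ModuleCat.of R (maximalIdeal R))
      (ModuleCat.of R (R ⧸ maximalIdeal R)) 0) ≤
      Module.length R (Abelian.Ext (ModuleCat.of R (R ⧸ maximalIdeal R))
        (ModuleCat.of R (R ⧸ maximalIdeal R)) (0 + 1)) := by
    refine delta_le (f := (maximalIdeal R).subtype) (g := (maximalIdeal R).mkQ)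
      (maximalIdeal R).injective_subtype (maximalIdeal R).mkQ_surjective
      (LinearMap.exact_subtype_mkQ _) ?_
    intro y
    obtain ⟨ψ, rfl⟩ := (Abelian.Ext.mk₀_bijective _ _).2 y
    rw [Abelian.Ext.mk₀_comp_mk₀]
    have : ModuleCat.ofHom (maximalIdeal R).subtype ≫ ψ = 0 := by
      ext v
      change ψ.hom (v : R) = 0
      have h4 : ((v : R)) = (v : R) • (1 : R) := by simp
      rw [h4, map_smul]
      obtain ⟨w, hw⟩ := Submodule.mkQ_surjective _ (ψ.hom (1 : R))
      rw [← hw, ← map_smul]
      exact (Submodule.Quotient.mk_eq_zero _).2 (Ideal.mul_mem_right _ _ v.2)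
    rw [this, Abelian.Ext.mk₀_zero]
  have h4 : ((rk R (maximalIdeal R) : ℕ) : ℕ∞) ≤ ((kap R 1 : ℕ) : ℕ∞) := by
    rw [coe_kap]
    refine h2.trans ?_
    rw [← el_zero]
    exact h3
  exact_mod_cast h4

end kap

end SAC84
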