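import Mathlib
import Pool.Agent.Lib.SAC84.KapB84
import Pool.Agent.Lib.SAC84.TS84

/-!
Vanishing of `Ext` between the syzygies in a two-sided minimal sequence over a
self-injective local ring.
-/

set_option autoImplicit false

open CategoryTheory IsLocalRing

universe u

namespace SAC84

section inj

variable {R : Type u} [CommRing R] [HasExt.{u} (ModuleCat.{u} R)]

lemma el_ring (hinj : Module.Injective R R) (Z : Type u) [AddCommGroup Z] [Module R Z] (n : ℕ) :
    el R Z R (n + 1) = 0 := by
  rw [el_eq_zero_iff]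
  have hI : CategoryTheory.Injective (ModuleCat.of R R) :=
    Module.injective_object_of_injective_module R R
  exact subsingleton_of_forall_eq 0 fun y =>
    Abelian.Ext.eq_zero_of_injective (I := ModuleCat.of R R) y

lemma el_free (hinj : Module.Injective R R) (Z : Type u) [AddCommGroup Z] [Module R Z]
    (m n : ℕ) : el R Z (Fin m → R) (n + 1) = 0 := by
  rw [el_pi, el_ring hinj, mul_zero]

end inj

section ts

variable {R : Type u} [CommRing R] [IsLocalRing R]
  [HasExt.{u} (ModuleCat.{u} R)] (T : TS R)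

lemma left_iff (Y : Type u) [AddCommGroup Y] [Module R Y] (i : ℤ) (n : ℕ) :
    ExtZ R (T.M i).car Y (n + 2) ↔ ExtZ R (T.M (i + 1)).car Y (n + 1) := by
  constructor
  · exact fun h => ExtZ.shift_left (T.inj i) (T.surj i) (T.ex i) h
  · intro h
    rw [← el_eq_zero_iff] at h ⊢
    have h1 := el_conn (Y := Y) (T.inj i) (T.surj i) (T.ex i) (n + 1)
    rw [h, el_proj (Z := Fin (T.b i) → R)] at h1
    simpa using h1

lemma right_iff (hinj : Module.Injective R R) (Z : Type u) [AddCommGroup Z] [Module R Z]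
    (j : ℤ) (n : ℕ) :
    ExtZ R Z (T.M j).car (n + 1) ↔ ExtZ R Z (T.M (j + 1)).car (n + 2) := by
  rw [← el_eq_zero_iff, ← el_eq_zero_iff]
  constructor
  · intro h
    have h1 := el_left (Z := Z) (T.inj j) (T.surj j) (T.ex j) (n + 1)
    rw [h, el_free hinj] at h1
    simpa using h1
  · intro h
    have h1 := el_right (Z := Z) (T.inj j) (T.surj j) (T.ex j) (n + 1)
    have h2 : n + 1 + 1 = n + 2 := rfl
    rw [h2, h, el_free hinj] at h1
    simpa using h1

lemma diag_iff (hinj : Module.Injective R R) (i j : ℤ) (n : ℕ) :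
    ExtZ R (T.M i).car (T.M j).car (n + 1) ↔
      ExtZ R (T.M (i + 1)).car (T.M (j + 1)).car (n + 1) := by
  rw [right_iff T hinj, left_iff T]

lemma diag_nat (hinj : Module.Injective R R) (i j : ℤ) (n k : ℕ) :
    ExtZ R (T.M i).car (T.M j).car (n + 1) ↔
      ExtZ R (T.M (i + k)).car (T.M (j + k)).car (n + 1) := by
  induction k with
  | zero =>
    have h1 : i + ((0 : ℕ) : ℤ) = i := by simp
    have h2 : j + ((0 : ℕ) : ℤ) = j := by simp
    rw [h1, h2]
  | succ k ih =>
    rw [ih, diag_iff T hinj]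
    have h1 : i + (k : ℤ) + 1 = i + ((k + 1 : ℕ) : ℤ) := by push_cast; ring
    have h2 : j + (k : ℤ) + 1 = j + ((k + 1 : ℕ) : ℤ) := by push_cast; ring
    rw [h1, h2]

lemma left_nat (Y : Type u) [AddCommGroup Y] [Module R Y] (i : ℤ) (n k : ℕ) :
    ExtZ R (T.M i).car Y (n + k + 1) ↔ ExtZ R (T.M (i + k)).car Y (n + 1) := by
  induction k generalizing n with
  | zero =>
    have h1 : i + ((0 : ℕ) : ℤ) = i := by simp
    rw [h1]
  | succ k ih =>
    have h3 : n + (k + 1) + 1 = (n + 1) + k + 1 := by omega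
    rw [h3, ih (n + 1), left_iff T]
    have h1 : i + (k : ℤ) + 1 = i + ((k + 1 : ℕ) : ℤ) := by push_cast; ring
    rw [h1]

/-- Vanishing of `Ext` in the region determined by the vanishing of self-extensions. -/
theorem vanish (hinj : Module.Injective R R) {N : ℕ}
    (h : ∀ n, N ≤ n → ExtZ R (T.M 0).car (T.M 0).car (n + 1)) (i j : ℤ) (n : ℕ)
    (hn : (N : ℤ) ≤ n + i - j) : ExtZ R (T.M i).car (T.M j).car (n + 1) := by
  -- reduce to `j = 0`
  have key : ∀ (d : ℤ) (n : ℕ), (N : ℤ) ≤ n + d → ExtZ R (T.M d).car (T.M 0).car (n + 1) := by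
    intro d n hd
    obtain ⟨m, rfl | rfl⟩ := d.eq_nat_or_neg
    · have h1 := (left_nat T (T.M 0).car 0 n m).1 (h (n + m) (by omega))
      rwa [zero_add] at h1
    · have h1 := (left_nat T (T.M 0).car (-(m : ℤ)) (n - m) m)
      have h2 : n - m + m + 1 = n + 1 := by omega
      have h3 : -(m : ℤ) + m = 0 := by ring
      rw [h2, h3] at h1
      exact h1.2 (h (n - m) (by omega))
  have h0 := key (i - j) n (by omega)
  obtain ⟨m, hm | hm⟩ := j.eq_nat_or_neg
  · subst hm
    have h1 := (diag_nat T hinj (i - m) 0 n m).1 h0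
    rwa [sub_add_cancel, zero_add] at h1
  · subst hm
    have h1 := (diag_nat T hinj i (-(m : ℤ)) n m).2
    refine h1 ?_
    rw [neg_add_cancel]
    have h2 : i - -(m : ℤ) = i + m := by ring
    rwa [h2] at h0

end ts

end SAC84
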