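import Mathlib
import Pool.Agent.Lib.SAC84.Van84
import Pool.Agent.Lib.SAC3.Exists3

/-!
Lengths of `Ext^n(k, Hom(M_i, M_j))` for the syzygies of a two-sided minimal sequence over a
self-injective artinian local ring.
-/

set_option autoImplicit false

open CategoryTheory IsLocalRing

universe u

namespace SAC84

section gen

variable {R : Type u} [CommRing R] {X Y Z W : Type u} [AddCommGroup X] [Module R X]
  [AddCommGroup Y] [Module R Y] [AddCommGroup Z] [Module R Z] [AddCommGroup W] [Module R W]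

lemma pc_exact {f : X →ₗ[R] Y} {g : Y →ₗ[R] Z} (hf : Function.Injective f)
    (H : Function.Exact f g) : Function.Exact (pc (Z := W) f) (pc (Z := W) g) := by
  intro φ
  constructor
  · intro hφ
    have h1 : ∀ w, φ w ∈ LinearMap.range f := by
      intro w
      have h2 := congrArg (fun t => t w) hφ
      exact (H (φ w)).1 h2
    let e := LinearEquiv.ofInjective f hf
    refine ⟨e.symm.toLinearMap ∘ₗ (φ.codRestrict (LinearMap.range f) h1), ?_⟩
    apply LinearMap.ext
    intro w
    change f (e.symm (φ.codRestrict (LinearMap.range f) h1 w)) = φ w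
    have h3 : ∀ y : LinearMap.range f, f (e.symm y) = y := by
      intro y
      have h4 := LinearEquiv.ofInjective_apply f (h := hf) (e.symm y)
      rw [← h4]
      exact congrArg Subtype.val (e.apply_symm_apply y)
    rw [h3]
    rfl
  · rintro ⟨ψ, rfl⟩
    apply LinearMap.ext
    intro w
    exact H.apply_apply_eq_zero (ψ w)

end gen

section soc

variable {R : Type u} [CommRing R] [IsLocalRing R] [IsNoetherianRing R] [IsArtinianRing R]
  [HasExt.{u} (ModuleCat.{u} R)]

/-- The socle of a self-injective artinian local ring has length one. -/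
lemma el_k_ring (hinj : Module.Injective R R) : el R (R ⧸ maximalIdeal R) R 0 = 1 := by
  rw [el_zero]
  obtain ⟨s, hs, hms⟩ := SAC3.exists_soc R
  let φ0 : (R ⧸ maximalIdeal R) →ₗ[R] R :=
    (maximalIdeal R).liftQ (LinearMap.toSpanSingleton R R s) (by
      intro a ha
      simpa using hms a ha)
  have h0 : φ0 (Submodule.Quotient.mk 1) = s := by
    rw [Submodule.liftQ_apply, LinearMap.toSpanSingleton_apply, one_smul]
  have hk : ∀ (φ : (R ⧸ maximalIdeal R) →ₗ[R] R), ∀ a ∈ maximalIdeal R, ∀ x, a • φ x = 0 := by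
    intro φ a ha x
    obtain ⟨b, rfl⟩ := Submodule.mkQ_surjective _ x
    rw [← map_smul, ← map_smul]
    have : (maximalIdeal R).mkQ (a • b) = 0 :=
      (Submodule.Quotient.mk_eq_zero _).2 (Ideal.mul_mem_right _ _ ha)
    rw [this, map_zero]
  let p : (Fin 1 → R) →ₗ[R] ((R ⧸ maximalIdeal R) →ₗ[R] R) :=
    LinearMap.toSpanSingleton R _ φ0 ∘ₗ LinearMap.proj (0 : Fin 1)
  have hp : Function.Surjective p := by
    intro φ
    obtain ⟨t, ht⟩ := SAC3.soc_gen hinj hs hms (z := φ (Submodule.Quotient.mk 1))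
      (fun a ha => hk φ a ha _)
    refine ⟨fun _ => t, ?_⟩
    apply LinearMap.ext
    intro x
    obtain ⟨b, rfl⟩ := Submodule.Quotient.mk_surjective _ x
    have hb : (Submodule.Quotient.mk b : R ⧸ maximalIdeal R) =
        b • (Submodule.Quotient.mk 1 : R ⧸ maximalIdeal R) := by
      change Submodule.Quotient.mk b = Submodule.Quotient.mk (b • (1 : R))
      rw [smul_eq_mul, mul_one]
    rw [hb, map_smul, map_smul]
    congr 1
    change (t • φ0) (Submodule.Quotient.mk 1) = _
    rw [LinearMap.smul_apply, h0, ht, smul_eq_mul, mul_comm]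
  have h1 := ln_le_of_killed (R := R) (H := (R ⧸ maximalIdeal R) →ₗ[R] R)
    (fun a ha φ => LinearMap.ext fun x => hk φ a ha x) p hp
  have h2 : ln R ((R ⧸ maximalIdeal R) →ₗ[R] R) ≠ 0 := by
    intro h
    rw [ln_eq_zero_iff] at h
    have h3 : φ0 = 0 := Subsingleton.elim _ _
    rw [h3, LinearMap.zero_apply] at h0
    exact hs h0.symm
  rw [← coe_ln]
  have h4 : ln R ((R ⧸ maximalIdeal R) →ₗ[R] R) = 1 := by omega
  rw [h4]
  rfl

end soc

section ts

variable {R : Type u} [CommRing R] [IsLocalRing R] [IsNoetherianRing R] [IsArtinianRing R]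
  [HasExt.{u} (ModuleCat.{u} R)] (T : TS R)

omit [IsNoetherianRing R] [IsArtinianRing R] [HasExt.{u} (ModuleCat.{u} R)] in
/-- Elements killed by the maximal ideal die in the next syzygy. -/
lemma pro_soc (l : ℤ) (v : Fin (T.b (l + 1)) → R) (hv : ∀ a ∈ maximalIdeal R, a • v = 0) :
    T.pro (l + 1) v = 0 := by
  apply T.inj l
  rw [map_zero]
  ext k
  let L : (Fin (T.b (l + 1)) → R) →ₗ[R] R :=
    LinearMap.proj k ∘ₗ T.inc l ∘ₗ T.pro (l + 1)
  have h1 : L v = ∑ s, v s • L (Pi.single s 1) := by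
    conv_lhs => rw [← LinearMap.sum_single_apply (fun _ : Fin (T.b (l + 1)) => R) v]
    rw [map_sum]
    refine Finset.sum_congr rfl fun j _ => ?_
    rw [← map_smul]
    congr 1
    ext t
    simp [Pi.single_apply]
  change L v = 0
  rw [h1]
  refine Finset.sum_eq_zero fun s _ => ?_
  have h2 := congrArg (fun w => w s) (hv _ (T.mem l (T.pro (l + 1) (Pi.single s 1)) k))
  rw [smul_eq_mul, mul_comm]
  exact h2

omit [IsNoetherianRing R] [IsArtinianRing R] [HasExt.{u} (ModuleCat.{u} R)] in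
lemma killed_of_k {Y : Type u} [AddCommGroup Y] [Module R Y] (φ : (R ⧸ maximalIdeal R) →ₗ[R] Y)
    (x : R ⧸ maximalIdeal R) (a : R) (ha : a ∈ maximalIdeal R) : a • φ x = 0 := by
  obtain ⟨b, rfl⟩ := Submodule.mkQ_surjective _ x
  rw [← map_smul, ← map_smul]
  have : (maximalIdeal R).mkQ (a • b) = 0 :=
    (Submodule.Quotient.mk_eq_zero _).2 (Ideal.mul_mem_right _ _ ha)
  rw [this, map_zero]

omit [IsNoetherianRing R] [IsArtinianRing R] in
lemma pro_zero (hinj : Module.Injective R R) (l : ℤ) (n : ℕ)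
    (y : Abelian.Ext (ModuleCat.of R (R ⧸ maximalIdeal R))
      (ModuleCat.of R (Fin (T.b (l + 1)) → R)) n) :
    pf (R ⧸ maximalIdeal R) (T.pro (l + 1)) n y = 0 := by
  cases n with
  | zero =>
    obtain ⟨φ, rfl⟩ := (Abelian.Ext.mk₀_bijective _ _).2 y
    rw [pf_apply, Abelian.Ext.mk₀_comp_mk₀]
    have : φ ≫ ModuleCat.ofHom (T.pro (l + 1)) = 0 := by
      apply ModuleCat.hom_ext
      apply LinearMap.ext
      intro x
      change T.pro (l + 1) (φ.hom x) = 0
      exact pro_soc T l _ fun a ha => killed_of_k φ.hom x a ha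
    rw [this, Abelian.Ext.mk₀_zero]
  | succ n =>
    have h1 := el_free hinj (R ⧸ maximalIdeal R) (T.b (l + 1)) n
    rw [el_eq_zero_iff] at h1
    rw [@Subsingleton.elim _ h1 y 0, map_zero]

/-- The Bass numbers of the syzygies. -/
theorem bass (hinj : Module.Injective R R) (n : ℕ) : ∀ j l : ℤ, j = l + 1 →
    el R (R ⧸ maximalIdeal R) (T.M j).car n = (T.b (l - n) : ℕ∞) := by
  induction n with
  | zero =>
    rintro _ l rfl
    obtain ⟨l', rfl⟩ : ∃ l', l = l' + 1 := ⟨l - 1, by ring⟩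
    rw [el_eq_zero (T.inj (l' + 1)) (T.surj (l' + 1)) (T.ex (l' + 1)) (pro_zero T hinj l' 0),
      el_pi, el_k_ring hinj, mul_one]
    simp
  | succ n ih =>
    rintro _ l rfl
    obtain ⟨l', rfl⟩ : ∃ l', l = l' + 1 := ⟨l - 1, by ring⟩
    rw [el_eq_succ (T.inj (l' + 1)) (T.surj (l' + 1)) (T.ex (l' + 1)) n
      (pro_zero T hinj l' n) (pro_zero T hinj l' (n + 1)), el_free hinj, add_zero,
      ih (l' + 1) l' rfl]
    congr 2
    push_cast
    ring

/-- Restriction of homomorphisms from the free module to the syzygy. -/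
noncomputable abbrev res (i : ℤ) (Y : Type u) [AddCommGroup Y] [Module R Y] :
    ((Fin (T.b i) → R) →ₗ[R] Y) →ₗ[R] ((T.M (i + 1)).car →ₗ[R] Y) :=
  LinearMap.lcomp R Y (T.inc i)

/-- Restriction is zero on `Ext^n(k, -)`. -/
theorem res_zero (hinj : Module.Injective R R) {D : ℤ}
    (hV : ∀ i j : ℤ, j + D ≤ i → ExtZ R (T.M i).car (T.M j).car 1) (n : ℕ) :
    ∀ i j : ℤ, j + D ≤ i + 1 →
    ∀ y : Abelian.Ext (ModuleCat.of R (R ⧸ maximalIdeal R))
      (ModuleCat.of R ((Fin (T.b i) → R) →ₗ[R] (T.M j).car)) n,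
      pf (R ⧸ maximalIdeal R) (res T i (T.M j).car) n y = 0 := by
  induction n with
  | zero =>
    intro i j _ y
    obtain ⟨φ, rfl⟩ := (Abelian.Ext.mk₀_bijective _ _).2 y
    rw [pf_apply, Abelian.Ext.mk₀_comp_mk₀]
    have : φ ≫ ModuleCat.ofHom (res T i (T.M j).car) = 0 := by
      apply ModuleCat.hom_ext
      apply LinearMap.ext
      intro x
      apply LinearMap.ext
      intro z
      change (φ.hom x : (Fin (T.b i) → R) →ₗ[R] (T.M j).car) (T.inc i z) = 0
      set f : (Fin (T.b i) → R) →ₗ[R] (T.M j).car := φ.hom x with hf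
      have hk : ∀ a ∈ maximalIdeal R, a • f = 0 := fun a ha => killed_of_k φ.hom x a ha
      have h1 : f (T.inc i z) = ∑ s, T.inc i z s • f (Pi.single s 1) := by
        conv_lhs => rw [← LinearMap.sum_single_apply (fun _ : Fin (T.b i) => R) (T.inc i z)]
        rw [map_sum]
        refine Finset.sum_congr rfl fun j _ => ?_
        rw [← map_smul]
        congr 1
        ext t
        simp [Pi.single_apply]
      rw [h1]
      refine Finset.sum_eq_zero fun s _ => ?_
      have h2 := congrArg (fun w : (Fin (T.b i) → R) →ₗ[R] (T.M j).car => w (Pi.single s 1))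
        (hk _ (T.mem i z s))
      exact h2
    rw [this, Abelian.Ext.mk₀_zero]
  | succ n ih =>
    intro i j hij x
    obtain ⟨l, rfl⟩ : ∃ l, j = l + 1 := ⟨j - 1, by ring⟩
    have hS1 := sc_exact (pc (Z := Fin (T.b i) → R) (T.inc l))
      (pc (Z := Fin (T.b i) → R) (T.pro l)) (pc_inj (T.inj l)) (fun φ => by
        obtain ⟨ψ, hψ⟩ := Module.projective_lifting_property (T.pro l) φ (T.surj l)
        exact ⟨ψ, hψ⟩) (pc_exact (T.inj l) (T.ex l))
    have hS2 := sc_exact (pc (Z := (T.M (i + 1)).car) (T.inc l))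
      (pc (Z := (T.M (i + 1)).car) (T.pro l)) (pc_inj (T.inj l)) (fun φ => by
        obtain ⟨ψ, hψ⟩ := ExtZ.lift (T.inj l) (T.surj l) (T.ex l) (hV (i + 1) (l + 1) hij) φ
        exact ⟨ψ, hψ⟩) (pc_exact (T.inj l) (T.ex l))
    have h0 : x.comp (Abelian.Ext.mk₀ (ModuleCat.ofHom (pc (Z := Fin (T.b i) → R) (T.inc l))))
        (add_zero (n + 1)) = 0 := by
      have h1 : el R (R ⧸ maximalIdeal R) ((Fin (T.b i) → R) →ₗ[R] (Fin (T.b l) → R)) (n + 1)
          = 0 := by
        rw [← el_eq_equiv (homPi (R := R) (Y := Fin (T.b l) → R) (T.b i)), el_pi,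
          el_free hinj, mul_zero]
      rw [el_eq_zero_iff] at h1
      exact @Subsingleton.elim _ h1 _ _
    obtain ⟨y, hy⟩ := Abelian.Ext.covariant_sequence_exact₁
      (ModuleCat.of R (R ⧸ maximalIdeal R)) hS1 x h0 rfl
    have hy0 := ih i l (by omega) y
    let τ : sc (pc (Z := Fin (T.b i) → R) (T.inc l)) (pc (Z := Fin (T.b i) → R) (T.pro l))
        (pc_exact (T.inj l) (T.ex l)).linearMap_comp_eq_zero ⟶
        sc (pc (Z := (T.M (i + 1)).car) (T.inc l)) (pc (Z := (T.M (i + 1)).car) (T.pro l))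
        (pc_exact (T.inj l) (T.ex l)).linearMap_comp_eq_zero :=
      { τ₁ := ModuleCat.ofHom (res T i (T.M (l + 1)).car)
        τ₂ := ModuleCat.ofHom (res T i (Fin (T.b l) → R))
        τ₃ := ModuleCat.ofHom (res T i (T.M l).car)
        comm₁₂ := rfl
        comm₂₃ := rfl }
    have hn := ShortComplex.ShortExact.extClass_naturality hS1 hS2 τ
    rw [pf_apply, ← hy]
    change (y.comp hS1.extClass rfl).comp (Abelian.Ext.mk₀ τ.τ₁) (add_zero (n + 1)) = 0
    rw [Abelian.Ext.comp_assoc_of_third_deg_zero, hn,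
      ← Abelian.Ext.comp_assoc_of_second_deg_zero]
    have hy1 : y.comp (Abelian.Ext.mk₀ τ.τ₃) (add_zero n) = 0 := hy0
    rw [hy1, Abelian.Ext.zero_comp]

end ts

end SAC84
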