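import Mathlib
import Pool.Agent.Lib.SAC84.Hom84
import Pool.Agent.Lib.SAC75.ZCore

/-!
Assembly: self-injective artinian local rings of length less than four times the embedding
dimension minus four.
-/

set_option autoImplicit false

open CategoryTheory IsLocalRing Finset

universe u

namespace SAC84

section ts

variable {R : Type u} [CommRing R] [IsLocalRing R] [IsNoetherianRing R] [IsArtinianRing R]
  [HasExt.{u} (ModuleCat.{u} R)] (T : TS R)

lemma bass_hom_succ (hinj : Module.Injective R R) {D : ℤ}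
    (hV : ∀ i j : ℤ, j + D ≤ i → ExtZ R (T.M i).car (T.M j).car 1) (n : ℕ)
    (i j : ℤ) (hij : j + D ≤ i) :
    el R (R ⧸ maximalIdeal R) ((T.M i).car →ₗ[R] (T.M j).car) (n + 1) =
      el R (R ⧸ maximalIdeal R) ((T.M (i + 1)).car →ₗ[R] (T.M j).car) n +
        T.b i * el R (R ⧸ maximalIdeal R) (T.M j).car (n + 1) := by
  have h1 := el_eq_succ (f := LinearMap.lcomp R (T.M j).car (T.pro i))
    (g := res T i (T.M j).car)
    (LinearMap.lcomp_injective_of_surjective _ (T.surj i))
    (fun φ => ExtZ.extend (T.inj i) (T.surj i) (T.ex i) (hV i j hij) φ)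
    (LinearMap.exact_lcomp_of_exact_of_surjective _ (T.ex i) (T.surj i)) n
    (res_zero T hinj hV n i j (by omega)) (res_zero T hinj hV (n + 1) i j (by omega))
  rw [h1, ← el_eq_equiv (homPi (R := R) (Y := (T.M j).car) (T.b i)), el_pi]

lemma bass_hom_zero (hinj : Module.Injective R R) {D : ℤ}
    (hV : ∀ i j : ℤ, j + D ≤ i → ExtZ R (T.M i).car (T.M j).car 1)
    (i j : ℤ) (hij : j + D ≤ i) :
    el R (R ⧸ maximalIdeal R) ((T.M i).car →ₗ[R] (T.M j).car) 0 =
      T.b i * el R (R ⧸ maximalIdeal R) (T.M j).car 0 := by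
  have h1 := el_eq_zero (f := LinearMap.lcomp R (T.M j).car (T.pro i))
    (g := res T i (T.M j).car)
    (LinearMap.lcomp_injective_of_surjective _ (T.surj i))
    (fun φ => ExtZ.extend (T.inj i) (T.surj i) (T.ex i) (hV i j hij) φ)
    (LinearMap.exact_lcomp_of_exact_of_surjective _ (T.ex i) (T.surj i))
    (res_zero T hinj hV 0 i j (by omega))
  rw [h1, ← el_eq_equiv (homPi (R := R) (Y := (T.M j).car) (T.b i)), el_pi]

/-- The Bass numbers of the modules of homomorphisms. -/
theorem bass_hom (hinj : Module.Injective R R) {D : ℤ}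
    (hV : ∀ i j : ℤ, j + D ≤ i → ExtZ R (T.M i).car (T.M j).car 1) (n : ℕ) :
    ∀ i l : ℤ, l + 1 + D ≤ i →
    el R (R ⧸ maximalIdeal R) ((T.M i).car →ₗ[R] (T.M (l + 1)).car) n =
      ((∑ p ∈ antidiagonal n, T.b (i + p.1) * T.b (l - p.2) : ℕ) : ℕ∞) := by
  induction n with
  | zero =>
    intro i l hil
    rw [bass_hom_zero T hinj hV i (l + 1) hil, bass T hinj 0 (l + 1) l rfl]
    simp
  | succ n ih =>
    intro i l hil
    rw [bass_hom_succ T hinj hV n i (l + 1) hil, ih (i + 1) l (by omega),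
      bass T hinj (n + 1) (l + 1) l rfl, Finset.Nat.sum_antidiagonal_succ]
    have h1 : ∑ p ∈ antidiagonal n, T.b (i + ((p.1 + 1 : ℕ) : ℤ)) * T.b (l - p.2) =
        ∑ p ∈ antidiagonal n, T.b (i + 1 + p.1) * T.b (l - p.2) := by
      refine Finset.sum_congr rfl fun p _ => ?_
      congr 2
      push_cast
      ring
    rw [h1]
    push_cast
    simp only [add_zero]
    ring

/-- The socle of a module. -/
abbrev sc0 (X : Type u) [AddCommGroup X] [Module R X] : Submodule R X := SAC3.soc R X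

omit [IsNoetherianRing R] in
lemma el_soc (X : Type u) [AddCommGroup X] [Module R X] [Module.Finite R X] :
    el R (R ⧸ maximalIdeal R) (sc0 (R := R) X) 0 = el R (R ⧸ maximalIdeal R) X 0 := by
  refine el_eq_zero (f := (sc0 (R := R) X).subtype) (g := (sc0 (R := R) X).mkQ)
    (sc0 (R := R) X).injective_subtype (sc0 (R := R) X).mkQ_surjective
    (LinearMap.exact_subtype_mkQ _) ?_
  intro y
  obtain ⟨φ, rfl⟩ := (Abelian.Ext.mk₀_bijective _ _).2 y
  rw [pf_apply, Abelian.Ext.mk₀_comp_mk₀]
  have : φ ≫ ModuleCat.ofHom (sc0 (R := R) X).mkQ = 0 := by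
    apply ModuleCat.hom_ext
    apply LinearMap.ext
    intro x
    exact (Submodule.Quotient.mk_eq_zero _).2 fun a ha => killed_of_k φ.hom x a ha
  rw [this, Abelian.Ext.mk₀_zero]

/-- The two inequalities for a module in terms of its Bass numbers. -/
lemma low_gen (X : Type u) [AddCommGroup X] [Module R X] [Module.Finite R X] {s : ℕ}
    (hs : el R (R ⧸ maximalIdeal R) X 0 = (s : ℕ∞)) {n m : ℕ}
    (hm : el R (R ⧸ maximalIdeal R) X (n + 1) = (m : ℕ∞)) :
    s * (kap R (n + 1) + kap R n) ≤ m + ln R X * kap R n := by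
  set S := sc0 (R := R) X with hS
  have hk : ∀ a ∈ maximalIdeal R, ∀ x : S, a • x = 0 := by
    intro a ha x
    apply Subtype.ext
    exact x.2 a ha
  have h0 : ln R S = s := by
    have h1 := el_soc (R := R) X
    rw [hs, el_killed (R ⧸ maximalIdeal R) hk 0, ← coe_kap, kap_zero] at h1
    have h2 : ln R S * 1 = s := by exact_mod_cast h1
    omega
  have h1 := el_left (Z := R ⧸ maximalIdeal R) S.injective_subtype S.mkQ_surjective
    (LinearMap.exact_subtype_mkQ S) n
  rw [hm, el_killed (R ⧸ maximalIdeal R) hk (n + 1), h0, ← coe_kap] at h1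
  have h2 := el_le (R := R) (R ⧸ maximalIdeal R) (X ⧸ S) n
  rw [← coe_kap] at h2
  have h3 : ((s * kap R (n + 1) : ℕ) : ℕ∞) ≤ ((ln R (X ⧸ S) * kap R n + m : ℕ) : ℕ∞) := by
    push_cast
    exact h1.trans (add_le_add h2 le_rfl)
  have h4 : s * kap R (n + 1) ≤ ln R (X ⧸ S) * kap R n + m := by exact_mod_cast h3
  have h5 : ln R X = s + ln R (X ⧸ S) := by
    rw [← h0]
    exact ln_sub_add S
  rw [h5]
  nlinarith

lemma up_gen (X : Type u) [AddCommGroup X] [Module R X] [Module.Finite R X] {n m : ℕ}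
    (hm : el R (R ⧸ maximalIdeal R) X n = (m : ℕ∞)) : m ≤ ln R X * kap R n := by
  have h2 := el_le (R := R) (R ⧸ maximalIdeal R) X n
  rw [← coe_kap, hm] at h2
  exact_mod_cast h2

/-- The numerical system of a two-sided sequence. -/
theorem zsys (hinj : Module.Injective R R) {N : ℕ}
    (h : ∀ n, N ≤ n → ExtZ R (T.M 0).car (T.M 0).car (n + 1)) :
    SAC75.ZSys (kap R) T.b (fun i l => ln R ((T.M i).car →ₗ[R] (T.M (l + 1)).car))
      (fun i => ln R (T.M i).car) (ln R R) (N + 1) := by
  have hV : ∀ i j : ℤ, j + (N : ℤ) ≤ i → ExtZ R (T.M i).car (T.M j).car 1 := by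
    intro i j hij
    exact vanish T hinj h i j 0 (by push_cast; omega)
  refine ⟨T.pos, ?_, ?_, ?_, ?_⟩
  · intro i l n hil
    have h0 := bass_hom T hinj hV 0 i l (by omega)
    have h1 := bass_hom T hinj hV (n + 1) i l (by omega)
    have h2 := low_gen _ h0 h1
    simpa using h2
  · intro i l n hil
    exact up_gen _ (bass_hom T hinj hV n i l (by omega))
  · intro i l hil
    have h1 := ln_add (f := LinearMap.lcomp R (T.M (l + 1)).car (T.pro i))
      (g := LinearMap.lcomp R (T.M (l + 1)).car (T.inc i))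
      (LinearMap.lcomp_injective_of_surjective _ (T.surj i))
      (fun φ => ExtZ.extend (T.inj i) (T.surj i) (T.ex i) (hV i (l + 1) (by omega)) φ)
      (LinearMap.exact_lcomp_of_exact_of_surjective _ (T.ex i) (T.surj i))
    rw [← ln_eq_equiv (homPi (R := R) (Y := (T.M (l + 1)).car) (T.b i)), ln_pi] at h1
    exact h1.symm
  · intro i
    have h1 := ln_add (T.inj i) (T.surj i) (T.ex i)
    rw [ln_pi] at h1
    change ln R (T.M i).car + ln R (T.M (i + 1)).car = _
    rw [mul_comm, h1, add_comm]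

/-- Theorem T for the two-sided sequence. -/
theorem ts_false (hinj : Module.Injective R R) {N : ℕ}
    (h : ∀ n, N ≤ n → ExtZ R (T.M 0).car (T.M 0).car (n + 1))
    (hc : ln R R + 5 ≤ 4 * Module.finrank (ResidueField R) (CotangentSpace R)) : False := by
  refine SAC75.ZSys.false (zsys T hinj h) kap_zero ?_ (C := ln R R) kap_add
  have := edim_le_kap (R := R)
  omega

/-- Theorem T over artinian rings. -/
theorem thmT (hinj : Module.Injective R R)
    (hc : ln R R + 5 ≤ 4 * Module.finrank (ResidueField R) (CotangentSpace R))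
    (M : FGM R) {N : ℕ} (hM : ∀ n, N ≤ n → ExtZ R M.car M.car n) : Module.Free R M.car := by
  by_contra hfree
  obtain ⟨T, hT⟩ := SAC3.exists_TS_of_not_free hinj M hfree
  refine ts_false T hinj (N := N) ?_ hc
  intro n hn
  rw [hT]
  have hR : ∀ n, ExtZ R M.car R (n + 1) := fun n =>
    (el_eq_zero_iff _).1 (el_ring hinj M.car n)
  exact ext_sy_sy M hR hM (i := 1) (j := 1) (by omega)

end ts

end SAC84
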