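import Mathlib
import Pool.Agent.Lib.SAC84.Ineq84

/-!
Upper bounds for the lengths of the modules of homomorphisms between syzygies and of the
syzygies over an artinian local ring, in terms of the image of a syzygy modulo the square of the
maximal ideal.
-/

set_option autoImplicit false

open CategoryTheory IsLocalRing

universe u

namespace SAC84

section lam

variable {R : Type u} [CommRing R] [IsLocalRing R] [IsNoetherianRing R] [IsArtinianRing R]

/-- The syzygy `sy M (j + 1)` modulo the square of the maximal ideal in `R ^ (bt M j)`. -/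
noncomputable def qm (M : FGM R) (j : ℕ) :
    (sy M (j + 1)).car →ₗ[R] (Fin (bt M j) → R ⧸ (maximalIdeal R ^ 2)) :=
  (LinearMap.pi fun t => (maximalIdeal R ^ 2 : Ideal R).mkQ ∘ₗ LinearMap.proj t) ∘ₗ inc M j

/-- The length of the image of `sy M (j + 1)` in `R ^ (bt M j)` modulo the square of the
maximal ideal. -/
noncomputable def lam (M : FGM R) (j : ℕ) : ℕ := ln R (LinearMap.range (qm M j))

omit [IsArtinianRing R] in
lemma qm_apply (M : FGM R) (j : ℕ) (x : (sy M (j + 1)).car) (t : Fin (bt M j)) :
    qm M j x t = (maximalIdeal R ^ 2 : Ideal R).mkQ (inc M j x t) := rfl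

omit [IsArtinianRing R] in
lemma qm_killed (M : FGM R) (j : ℕ) (a : R) (ha : a ∈ maximalIdeal R)
    (x : (sy M (j + 1)).car) : a • qm M j x = 0 := by
  funext t
  rw [← map_smul]
  change (maximalIdeal R ^ 2 : Ideal R).mkQ (inc M j (a • x) t) = 0
  rw [map_smul]
  refine (Submodule.Quotient.mk_eq_zero _).2 ?_
  rw [pow_two]
  exact Ideal.mul_mem_mul ha (inc_mem M j x t)

/-- The image is killed by the maximal ideal, so its length is at most the number of
generators. -/
lemma lam_le (M : FGM R) (j : ℕ) : lam M j ≤ bt M (j + 1) := by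
  refine ln_le_of_killed (fun a ha x => ?_) ((qm M j).rangeRestrict ∘ₗ pro M (j + 1))
    ((qm M j).surjective_rangeRestrict.comp (pro_surj M (j + 1)))
  obtain ⟨x, y, rfl⟩ := x
  exact Subtype.ext (qm_killed M j a ha y)

/-- The length of a syzygy. -/
lemma ln_sy_le (M : FGM R) (j : ℕ) :
    ln R (sy M (j + 1)).car + lam M (j + 1) ≤
      bt M (j + 1) * ln R (R ⧸ (maximalIdeal R ^ 2)) +
        bt M j * ln R (maximalIdeal R ^ 3 : Ideal R) := by
  let W : Submodule R (sy M (j + 1)).car := (maximalIdeal R ^ 2 : Ideal R) • ⊤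
  have h1 : ln R (sy M (j + 1)).car = ln R W + ln R ((sy M (j + 1)).car ⧸ W) := ln_sub_add W
  -- the quotient
  have h2 : ln R ((sy M (j + 1)).car ⧸ W) + lam M (j + 1) ≤
      bt M (j + 1) * ln R (R ⧸ (maximalIdeal R ^ 2)) := by
    let ρ : (Fin (bt M (j + 1)) → R) →ₗ[R] (Fin (bt M (j + 1)) → R ⧸ (maximalIdeal R ^ 2)) :=
      LinearMap.pi fun t => (maximalIdeal R ^ 2 : Ideal R).mkQ ∘ₗ LinearMap.proj t
    have hρ : Function.Surjective ρ := by
      intro v
      have h3 : ∀ t, ∃ a : R, (maximalIdeal R ^ 2 : Ideal R).mkQ a = v t := fun t =>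
        Submodule.mkQ_surjective _ (v t)
      choose w hw using h3
      exact ⟨w, funext hw⟩
    let S := LinearMap.range (qm M (j + 1))
    have h4 := ln_sub_add S
    rw [ln_pi] at h4
    have hker : LinearMap.ker (S.mkQ ∘ₗ ρ) ≤ LinearMap.ker (W.mkQ ∘ₗ pro M (j + 1)) := by
      intro v hv
      have hv' : ρ v ∈ S := (Submodule.Quotient.mk_eq_zero _).1 hv
      obtain ⟨x, hx⟩ := hv'
      have h5 : ∀ t, v t - inc M (j + 1) x t ∈ (maximalIdeal R ^ 2 : Ideal R) := by
        intro t
        have h6 : (maximalIdeal R ^ 2 : Ideal R).mkQ (inc M (j + 1) x t) =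
            (maximalIdeal R ^ 2 : Ideal R).mkQ (v t) := congrFun hx t
        have h7 := (Submodule.Quotient.eq (maximalIdeal R ^ 2 : Ideal R)).1 h6.symm
        exact h7
      have h8 : pro M (j + 1) v = pro M (j + 1) (v - inc M (j + 1) x) := by
        rw [map_sub, (inc_pro M (j + 1)).apply_apply_eq_zero, sub_zero]
      refine (Submodule.Quotient.mk_eq_zero _).2 ?_
      rw [h8]
      have h9 : pro M (j + 1) (v - inc M (j + 1) x) =
          ∑ s, (v - inc M (j + 1) x) s • pro M (j + 1) (Pi.single s 1) := by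
        conv_lhs => rw [← LinearMap.sum_single_apply (fun _ : Fin (bt M (j + 1)) => R)
          (v - inc M (j + 1) x)]
        rw [map_sum]
        refine Finset.sum_congr rfl fun s _ => ?_
        rw [← map_smul]
        congr 1
        ext t
        simp [Pi.single_apply]
      rw [h9]
      exact Submodule.sum_mem _ fun s _ => Submodule.smul_mem_smul (h5 s) trivial
    let e := (S.mkQ ∘ₗ ρ).quotKerEquivOfSurjective (S.mkQ_surjective.comp hρ)
    let p : ((Fin (bt M (j + 1)) → R ⧸ (maximalIdeal R ^ 2)) ⧸ S) →ₗ[R]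
        ((sy M (j + 1)).car ⧸ W) :=
      (LinearMap.ker (S.mkQ ∘ₗ ρ)).liftQ (W.mkQ ∘ₗ pro M (j + 1)) hker ∘ₗ
        (e.symm : _ →ₗ[R] _)
    have hp : Function.Surjective p := by
      intro y
      obtain ⟨x, rfl⟩ := W.mkQ_surjective y
      obtain ⟨v, rfl⟩ := pro_surj M (j + 1) x
      refine ⟨e (Submodule.Quotient.mk v), ?_⟩
      change (LinearMap.ker (S.mkQ ∘ₗ ρ)).liftQ (W.mkQ ∘ₗ pro M (j + 1)) hker
        (e.symm (e (Submodule.Quotient.mk v))) = _
      rw [LinearEquiv.symm_apply_apply]
      rfl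
    have h10 := ln_le_surj hp
    have h11 : lam M (j + 1) = ln R S := rfl
    omega
  -- the submodule
  have h3 : ln R W ≤ bt M j * ln R (maximalIdeal R ^ 3 : Ideal R) := by
    have hmem : ∀ x ∈ W, ∀ t, inc M j x t ∈ (maximalIdeal R ^ 3 : Ideal R) := by
      intro x hx t
      refine Submodule.smul_induction_on hx ?_ ?_
      · intro a ha y _
        rw [map_smul, Pi.smul_apply, smul_eq_mul, pow_succ (maximalIdeal R) 2]
        exact Ideal.mul_mem_mul ha (inc_mem M j y t)
      · intro x y hx hy
        rw [map_add, Pi.add_apply]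
        exact Ideal.add_mem _ hx hy
    let Θ : W →ₗ[R] (Fin (bt M j) → (maximalIdeal R ^ 3 : Ideal R)) :=
      { toFun := fun x t => ⟨inc M j x.1 t, hmem x.1 x.2 t⟩
        map_add' := by
          intro x y
          ext t
          simp
        map_smul' := by
          intro a x
          ext t
          simp }
    have hΘ : Function.Injective Θ := by
      intro x y hxy
      apply Subtype.ext
      apply inc_inj M j
      ext t
      exact congrArg (fun z => ((z t : (maximalIdeal R ^ 3 : Ideal R)) : R)) hxy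
    have h4 := ln_le_inj hΘ
    rw [ln_pi] at h4
    exact h4
  omega

variable [HasExt.{u} (ModuleCat.{u} R)]

/-- The upper bound for the length of the module of homomorphisms, with the cube of the maximal
ideal. -/
lemma hl_le_cube (M : FGM R) (i j : ℕ)
    (h1 : ExtZ R (sy M (i + 1)).car (sy M (j + 2)).car 1)
    (h2 : ExtZ R (sy M i).car R 1) :
    hl M (i + 1) (j + 1) ≤ bt M i * bt M (j + 1) +
      ln R (maximalIdeal R ^ 3 : Ideal R) * (bt M (i + 1) * bt M j) := by
  set H := (sy M (i + 1)).car →ₗ[R] (sy M (j + 1)).car with hH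
  let W : Submodule R H := maximalIdeal R • ⊤
  have hW : ln R H = ln R W + ln R (H ⧸ W) := ln_sub_add W
  have hq : ln R (H ⧸ W) ≤ bt M i * bt M (j + 1) := by
    let Φ : ((Fin (bt M i) → R) →ₗ[R] (Fin (bt M (j + 1)) → R)) →ₗ[R] H :=
      (pc (pro M (j + 1))) ∘ₗ (LinearMap.lcomp R _ (inc M i))
    have hΦ : Function.Surjective Φ := by
      intro φ
      obtain ⟨ψ, hψ⟩ := factor M i (j + 1) h1 h2 φ
      exact ⟨ψ, hψ⟩
    let e : (Fin (bt M i * bt M (j + 1)) → R) ≃ₗ[R]
        ((Fin (bt M i) → R) →ₗ[R] (Fin (bt M (j + 1)) → R)) :=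
      (LinearEquiv.funCongrLeft R R (finProdFinEquiv (m := bt M i) (n := bt M (j + 1)))) ≪≫ₗ
        (LinearEquiv.curry R R (Fin (bt M i)) (Fin (bt M (j + 1)))) ≪≫ₗ homPi _
    refine ln_le_of_killed (fun a ha x => ?_) (W.mkQ ∘ₗ Φ ∘ₗ e.toLinearMap)
      (W.mkQ_surjective.comp (hΦ.comp e.surjective))
    obtain ⟨y, rfl⟩ := W.mkQ_surjective x
    rw [← map_smul]
    exact (Submodule.Quotient.mk_eq_zero W).2 (Submodule.smul_mem_smul ha trivial)
  have hw : ln R W ≤ ln R (maximalIdeal R ^ 3 : Ideal R) * (bt M (i + 1) * bt M j) := by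
    let Ψ : H →ₗ[R] (Fin (bt M (i + 1)) → (Fin (bt M j) → R)) :=
      (homPi (R := R) (Y := Fin (bt M j) → R) (bt M (i + 1))).symm.toLinearMap ∘ₗ
        (LinearMap.lcomp R (Fin (bt M j) → R) (pro M (i + 1))) ∘ₗ (pc (inc M j))
    have hΨ : ∀ f s t, Ψ f s t = inc M j (f (pro M (i + 1) (Pi.single s 1))) t := by
      intro f s t
      rfl
    have hΨi : Function.Injective Ψ := by
      exact (homPi (R := R) (Y := Fin (bt M j) → R) (bt M (i + 1))).symm.injective.comp
        ((LinearMap.lcomp_injective_of_surjective _ (pro_surj M (i + 1))).comp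
          (pc_inj (inc_inj M j)))
    have hsoc : ∀ f ∈ W, ∀ s t, Ψ f s t ∈ (maximalIdeal R ^ 3 : Ideal R) := by
      intro f hf s t
      refine Submodule.smul_induction_on hf ?_ ?_
      · intro a ha g _
        rw [map_smul, Pi.smul_apply, Pi.smul_apply, hΨ, smul_eq_mul,
          pow_succ' (maximalIdeal R) 2]
        exact Ideal.mul_mem_mul ha (factor_sq M i j h1 h2 g (pro M (i + 1) (Pi.single s 1)) t)
      · intro f g hf hg
        rw [map_add, Pi.add_apply, Pi.add_apply]
        exact Ideal.add_mem _ hf hg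
    let Θ : W →ₗ[R] (Fin (bt M (i + 1)) → (Fin (bt M j) → (maximalIdeal R ^ 3 : Ideal R))) :=
      { toFun := fun f s t => ⟨Ψ f.1 s t, hsoc f.1 f.2 s t⟩
        map_add' := by
          intro f g
          ext s t
          simp
        map_smul' := by
          intro a f
          ext s t
          simp }
    have hΘ : Function.Injective Θ := by
      intro f g hfg
      apply Subtype.ext
      apply hΨi
      ext s t
      have := congrArg (fun z => ((z s t : (maximalIdeal R ^ 3 : Ideal R)) : R)) hfg
      exact this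
    have h7 := ln_le_inj hΘ
    rw [ln_pi, ln_pi] at h7
    calc ln R W ≤ _ := h7
      _ = _ := by ring
  have : hl M (i + 1) (j + 1) = ln R H := rfl
  rw [this, hW]
  omega

/-- The upper bound for the length of the module of homomorphisms, with the image of the syzygy
modulo the square of the maximal ideal. -/
lemma hl_le_lam (M : FGM R) (h4 : maximalIdeal R ^ 4 = ⊥) (i j : ℕ)
    (h1 : ExtZ R (sy M (i + 1)).car (sy M (j + 2)).car 1)
    (h2 : ExtZ R (sy M i).car R 1) :
    hl M (i + 1) (j + 1) ≤ bt M i * lam M j +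
      ln R (maximalIdeal R).annihilator * (bt M (i + 1) * bt M j) := by
  set H := (sy M (i + 1)).car →ₗ[R] (sy M (j + 1)).car with hH
  let Ψ : H →ₗ[R] (Fin (bt M (i + 1)) → (Fin (bt M j) → R)) :=
    (homPi (R := R) (Y := Fin (bt M j) → R) (bt M (i + 1))).symm.toLinearMap ∘ₗ
      (LinearMap.lcomp R (Fin (bt M j) → R) (pro M (i + 1))) ∘ₗ (pc (inc M j))
  have hΨ : ∀ f s t, Ψ f s t = inc M j (f (pro M (i + 1) (Pi.single s 1))) t := by
    intro f s t
    rfl
  have hΨi : Function.Injective Ψ := by
    exact (homPi (R := R) (Y := Fin (bt M j) → R) (bt M (i + 1))).symm.injective.comp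
      ((LinearMap.lcomp_injective_of_surjective _ (pro_surj M (i + 1))).comp
        (pc_inj (inc_inj M j)))
  -- the homomorphisms with values in the socle
  let W : Submodule R H :=
    { carrier := {f | ∀ s t, Ψ f s t ∈ (maximalIdeal R).annihilator}
      add_mem' := by
        intro f g hf hg s t
        rw [map_add, Pi.add_apply, Pi.add_apply]
        exact Ideal.add_mem _ (hf s t) (hg s t)
      zero_mem' := by
        intro s t
        rw [map_zero]
        exact Ideal.zero_mem _
      smul_mem' := by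
        intro a f hf s t
        rw [map_smul, Pi.smul_apply, Pi.smul_apply]
        exact Ideal.mul_mem_left _ _ (hf s t) }
  have hW : ln R H = ln R W + ln R (H ⧸ W) := ln_sub_add W
  have hw : ln R W ≤ ln R (maximalIdeal R).annihilator * (bt M (i + 1) * bt M j) := by
    let Θ : W →ₗ[R] (Fin (bt M (i + 1)) → (Fin (bt M j) → (maximalIdeal R).annihilator)) :=
      { toFun := fun f s t => ⟨Ψ f.1 s t, f.2 s t⟩
        map_add' := by
          intro f g
          ext s t
          simp
        map_smul' := by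
          intro a f
          ext s t
          simp }
    have hΘ : Function.Injective Θ := by
      intro f g hfg
      apply Subtype.ext
      apply hΨi
      ext s t
      have := congrArg (fun z => ((z s t : (maximalIdeal R).annihilator) : R)) hfg
      exact this
    have h7 := ln_le_inj hΘ
    rw [ln_pi, ln_pi] at h7
    calc ln R W ≤ _ := h7
      _ = _ := by ring
  have hq : ln R (H ⧸ W) ≤ bt M i * lam M j := by
    let Φ : ((Fin (bt M i) → R) →ₗ[R] (Fin (bt M (j + 1)) → R)) →ₗ[R] H :=
      (pc (pro M (j + 1))) ∘ₗ (LinearMap.lcomp R _ (inc M i))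
    have hΦ : Function.Surjective Φ := by
      intro φ
      obtain ⟨ψ, hψ⟩ := factor M i (j + 1) h1 h2 φ
      exact ⟨ψ, hψ⟩
    let Λ : ((Fin (bt M i) → R) →ₗ[R] (Fin (bt M (j + 1)) → R)) →ₗ[R]
        (Fin (bt M i) → LinearMap.range (qm M j)) :=
      LinearMap.pi fun s => (qm M j).rangeRestrict ∘ₗ pro M (j + 1) ∘ₗ
        (LinearMap.applyₗ (Pi.single s (1 : R)))
    have hΛa : ∀ G s, Λ G s = (qm M j).rangeRestrict (pro M (j + 1) (G (Pi.single s 1))) := by
      intro G s
      rfl
    have hΛ : Function.Surjective Λ := by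
      intro v
      have h3 : ∀ s, ∃ y : Fin (bt M (j + 1)) → R,
          (qm M j).rangeRestrict (pro M (j + 1) y) = v s := by
        intro s
        obtain ⟨x, hx⟩ := (qm M j).surjective_rangeRestrict (v s)
        obtain ⟨y, rfl⟩ := pro_surj M (j + 1) x
        exact ⟨y, hx⟩
      choose y hy using h3
      refine ⟨homPi (R := R) (Y := Fin (bt M (j + 1)) → R) (bt M i) y, ?_⟩
      funext s
      rw [hΛa, ← hy s]
      have h5 : homPi (R := R) (Y := Fin (bt M (j + 1)) → R) (bt M i) y (Pi.single s 1) = y s :=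
        congrFun ((homPi (R := R) (Y := Fin (bt M (j + 1)) → R) (bt M i)).symm_apply_apply y) s
      rw [h5]
    have hker : LinearMap.ker Λ ≤ LinearMap.ker (W.mkQ ∘ₗ Φ) := by
      intro G hG
      refine (Submodule.Quotient.mk_eq_zero _).2 ?_
      intro s t
      have hG' : ∀ s t, inc M j (pro M (j + 1) (G (Pi.single s 1))) t ∈
          (maximalIdeal R ^ 2 : Ideal R) := by
        intro s t
        have h5 : Λ G s = 0 := congrFun hG s
        rw [hΛa] at h5
        have h6 : qm M j (pro M (j + 1) (G (Pi.single s 1))) = 0 := congrArg Subtype.val h5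
        exact (Submodule.Quotient.mk_eq_zero _).1 (congrFun h6 t)
      rw [hΨ]
      let L : (Fin (bt M i) → R) →ₗ[R] R :=
        (LinearMap.proj t) ∘ₗ inc M j ∘ₗ pro M (j + 1) ∘ₗ G
      have hL : ∀ v, L v = ∑ s, v s • L (Pi.single s 1) := by
        intro v
        conv_lhs => rw [← LinearMap.sum_single_apply (fun _ : Fin (bt M i) => R) v]
        rw [map_sum]
        refine Finset.sum_congr rfl fun j _ => ?_
        rw [← map_smul]
        congr 1
        ext t
        simp [Pi.single_apply]
      change L (inc M i (pro M (i + 1) (Pi.single s 1))) ∈ _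
      rw [hL]
      refine Ideal.sum_mem _ fun s' _ => ?_
      rw [Submodule.mem_annihilator]
      intro b hb
      have h7 : inc M i (pro M (i + 1) (Pi.single s 1)) s' * L (Pi.single s' 1) * b ∈
          maximalIdeal R ^ 4 := by
        have : maximalIdeal R ^ 4 = maximalIdeal R * maximalIdeal R ^ 2 * maximalIdeal R := by
          ring
        rw [this]
        exact Ideal.mul_mem_mul (Ideal.mul_mem_mul (inc_mem M i _ s') (hG' s' t)) hb
      rw [h4] at h7
      simpa [smul_eq_mul] using h7
    let e := Λ.quotKerEquivOfSurjective hΛ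
    let p : (Fin (bt M i) → LinearMap.range (qm M j)) →ₗ[R] (H ⧸ W) :=
      (LinearMap.ker Λ).liftQ (W.mkQ ∘ₗ Φ) hker ∘ₗ (e.symm : _ →ₗ[R] _)
    have hp : Function.Surjective p := by
      intro y
      obtain ⟨x, rfl⟩ := W.mkQ_surjective y
      obtain ⟨G, rfl⟩ := hΦ x
      refine ⟨e (Submodule.Quotient.mk G), ?_⟩
      change (LinearMap.ker Λ).liftQ (W.mkQ ∘ₗ Φ) hker
        (e.symm (e (Submodule.Quotient.mk G))) = _
      rw [LinearEquiv.symm_apply_apply]
      rfl
    have h10 := ln_le_surj hp
    rw [ln_pi] at h10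
    exact h10
  have : hl M (i + 1) (j + 1) = ln R H := rfl
  rw [this, hW]
  omega

end lam

end SAC84
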